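import Mathlib

/-!
# The cardinal characteristics `add`, `cofin` and `cof` of the meager and the null ideal:
# definitions and statements
-/

set_option autoImplicit false

namespace Pool.Agent.W684.CF

open MeasureTheory Cardinal Filter
open scoped ENNReal Cardinal

/-- The Cantor space. -/
abbrev Cant : Type := ℕ → Bool

/-- The fair coin. -/
noncomputable def coin : Measure Bool :=
  (2⁻¹ : ℝ≥0∞) • Measure.dirac false + (2⁻¹ : ℝ≥0∞) • Measure.dirac true

/-- The fair coin (product) measure of the Cantor space. -/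
noncomputable def mu : Measure Cant := Measure.infinitePi fun _ => coin

/-- The ideal of the null sets. -/
def NullSets : Set (Set Cant) := {A | mu A = 0}

/-- The ideal of the meager sets. -/
def MeagerSets : Set (Set Cant) := {A | IsMeagre A}

/-- A sigma-ideal: a family of sets containing the empty set, closed under subsets and countable
unions. -/
def SigmaIdeal {X : Type} (J : Set (Set X)) : Prop :=
  ∅ ∈ J ∧ (∀ A ∈ J, ∀ B, B ⊆ A → B ∈ J) ∧ ∀ f : ℕ → Set X, (∀ n, f n ∈ J) → (⋃ n, f n) ∈ J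

/-- `add(I)`: the least size of a subfamily of `I` whose union is not in `I`. -/
noncomputable def addNum {X : Type} (I : Set (Set X)) : Cardinal.{0} :=
  sInf {c | ∃ F : Set (Set X), F ⊆ I ∧ ⋃₀ F ∉ I ∧ #F = c}

/-- `cof(I)`: the least size of a subfamily `F` of `I` such that every member of `I` is a subset
of a member of `F`. -/
noncomputable def cofNum {X : Type} (I : Set (Set X)) : Cardinal.{0} :=
  sInf {c | ∃ F : Set (Set X), F ⊆ I ∧ (∀ A ∈ I, ∃ B ∈ F, A ⊆ B) ∧ #F = c}

/-- The limit ordinals `γ` such that `I` is the union of a strictly increasing sequence of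
sigma-ideals of length `γ`. -/
def ChainLengths {X : Type} (I : Set (Set X)) : Set Ordinal.{0} :=
  {γ | 0 < γ ∧ (∀ α < γ, α + 1 < γ) ∧ ∃ J : Ordinal.{0} → Set (Set X),
    (∀ α < γ, SigmaIdeal (J α)) ∧ (∀ α β, α < β → β < γ → J α ⊂ J β) ∧
      ∀ A, A ∈ I ↔ ∃ α < γ, A ∈ J α}

/-- `cofin(I)`: the least limit ordinal `γ` such that `I` is the union of a strictly increasing
sequence of sigma-ideals of length `γ`. -/
noncomputable def cofin {X : Type} (I : Set (Set X)) : Ordinal.{0} := sInf (ChainLengths I)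

/-- S_CHAIN: sigma-ideals indexed by a well-ordered set give a chain -/
def S_CHAIN : Prop :=
  ∀ (X Ω : Type) [LinearOrder Ω] [WellFoundedLT Ω] (I : Set (Set X)), SigmaIdeal I →
    ∀ J : Ω → Set (Set X), (∀ β, SigmaIdeal (J β)) → (∀ β, ¬ I ⊆ J β) →
      (∀ A ∈ I, ∃ β, ∀ β', β ≤ β' → A ∈ J β') →
        ∃ γ ∈ ChainLengths I, γ ≤ Ordinal.type (α := Ω) (· < ·)

/-- S_ADD: `add(I) ≤ cofin(I)` -/
def S_ADD : Prop :=
  ∀ (X : Type) (I : Set (Set X)), SigmaIdeal I → ∀ γ ∈ ChainLengths I, (addNum I).ord ≤ γ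

/-- S_MEAGRE: `cofin(M) = add(M)` -/
def S_MEAGRE : Prop := cofin MeagerSets = (addNum MeagerSets).ord

/-- S_MOD: the null ideal is an increasing union of proper sigma-ideals indexed by the functions
ordered by eventual domination -/
def S_MOD : Prop :=
  ∃ J : (ℕ → ℕ) → Set (Set Cant),
    (∀ f, SigmaIdeal (J f) ∧ J f ⊆ NullSets ∧ ¬ NullSets ⊆ J f) ∧
    (∀ f g : ℕ → ℕ, (∃ N, ∀ n, N ≤ n → f n ≤ g n) → J f ⊆ J g) ∧
    ∀ A ∈ NullSets, ∃ f, A ∈ J f

/-- `S` is a slalom of width `h`: every `S n` has at most `h n` elements. -/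
def Slalom (h : ℕ → ℕ) (S : ℕ → ℕ → Prop) : Prop :=
  ∀ (n : ℕ) (t : Finset ℕ), h n < t.card → ∃ v ∈ t, ¬ S n v

/-- There is a family of functions indexed by `M` such that no family of slaloms indexed by `M'`
captures all of them. -/
def NotCaptured (M M' : Type) : Prop :=
  ∃ y : M → ℕ → ℕ, ∀ S : M' → ℕ → ℕ → Prop, (∀ i, Slalom (fun n => 2 ^ (3 * n)) (S i)) →
    ∃ l : M, ∀ i : M', ∀ N, ∃ n, N ≤ n ∧ ¬ S i n (y l n)

/-- There is a dominating family `f` of functions indexed by the linearly ordered set `Ω` such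
that every function is eventually dominated by all functions `f β` with large `β`. -/
def Dominated (Ω : Type) [LinearOrder Ω] : Prop :=
  ∃ f : Ω → ℕ → ℕ, ∀ g : ℕ → ℕ, ∃ β, ∀ β', β ≤ β' → ∃ N, ∀ n, N ≤ n → g n ≤ f β' n

/-- There is a family of reals `d` indexed by `C` such that for all families of functions `x`
indexed by `K` and all `E : K → C → Prop` there is a slalom `S` of width `n` which captures,
for all `k`, the restriction of `x k` to one of the sets `{n | d c n ↔ E k c}`. -/
def PartlyCaptured (K C : Type) : Prop :=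
  ∃ d : C → ℕ → Prop, ∀ (x : K → ℕ → ℕ) (E : K → C → Prop),
    ∃ S : ℕ → ℕ → Prop, Slalom (fun n => n) S ∧
      ∀ k, ∃ c, ∃ N, ∀ n, N ≤ n → (d c n ↔ E k c) → S n (x k n)

/-- the combinatorial statement which is forced -/
def PhiFor (K L Ω C : Type) [LinearOrder Ω] : Prop :=
  NotCaptured K Unit ∧ NotCaptured L Ω ∧ Dominated Ω ∧ PartlyCaptured K C

/-- S_AMB: the combinatorial statement implies `add(N) < cofin(N) < cof(N)` -/
def S_AMB : Prop :=
  ∀ (K L Ω C : Type) [LinearOrder Ω] [WellFoundedLT Ω], PhiFor K L Ω C →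
    (addNum NullSets).ord < cofin NullSets ∧ cofin NullSets < (cofNum NullSets).ord

end Pool.Agent.W684.CF
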