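import Pool.Agent.W924.CF.Card
import Pool.Agent.W152.CF.Stm2

/-!
# The cardinalities with a nonempty index set (variation of the proof of `W924.CF.card`)
-/

set_option autoImplicit false

namespace Pool.Agent.W684.CF

open Classical Cardinal
open scoped Cardinal
open Pool.Agent.W684.CF
open Pool.Agent.W924.CF Pool.Agent.W152.CF

theorem card2 : S_CARD2 := by
  let K : Type := (Cardinal.aleph 1 : Cardinal.{0}).ord.ToType
  let Ω : Type := (Cardinal.aleph 2 : Cardinal.{0}).ord.ToType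
  let Λ : Type := Set Ω
  have hK : #K = Cardinal.aleph 1 := Cardinal.mk_ord_toType _
  have hΩ : #Ω = Cardinal.aleph 2 := Cardinal.mk_ord_toType _
  have hΛ : #Λ = 2 ^ #Ω := Cardinal.mk_set
  have h12 : Order.succ (Cardinal.aleph 1 : Cardinal.{0}) = Cardinal.aleph 2 := by
    rw [Cardinal.succ_aleph, one_add_one_eq_two]
  have hK0 : ℵ₀ < #K := by
    rw [hK]; exact Cardinal.aleph0_lt_aleph_one
  have hKΩ : #K < #Ω := by
    rw [hK, hΩ, ← h12]; exact Order.lt_succ _
  have hΩΛ : #Ω < #Λ := by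
    rw [hΛ]; exact Cardinal.cantor _
  have hc : ℵ₀ ≤ #Λ := (hK0.trans (hKΩ.trans hΩΛ)).le
  have hpow : ∀ a : Cardinal.{0}, a ≠ 0 → a ≤ #Ω → #Λ ^ a = #Λ := by
    intro a ha0 ha
    rw [hΛ, ← Cardinal.power_mul, Cardinal.mul_eq_left (hK0.trans hKΩ).le ha ha0]
  have hc2 : #Λ ^ ℵ₀ = #Λ := hpow _ Cardinal.aleph0_ne_zero (hK0.trans hKΩ).le
  have hc3 : #Λ ^ #K = #Λ := hpow _ (Cardinal.aleph0_pos.trans hK0).ne' hKΩ.le
  have hIio : ∀ k : K, (Set.Iio k).Countable := fun k => by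
    rw [Cardinal.countable_iff_lt_aleph_one]
    exact Cardinal.mk_Iio_toType_ord_lt k
  have hunc : Uncountable K := Cardinal.aleph0_lt_mk_iff.1 hK0
  have hM : #(Λ ⊕ K) ≤ #Λ := by
    rw [Cardinal.mk_sum, Cardinal.lift_id, Cardinal.lift_id]
    exact (add_le_add le_rfl (hKΩ.trans hΩΛ).le).trans (Cardinal.add_eq_self hc).le
  have hI : #(Ix Ω Λ) ≤ #Λ := mk_Ix hc hΩΛ.le
  have hN : #(NmI K Ω Λ) ≤ #Λ := mk_Nm hc hc2 hM hI
  have hne : Nonempty Ω := by
    rw [← Cardinal.mk_ne_zero_iff]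
    exact (hK0.trans hKΩ).ne_bot
  refine ⟨K, Ω, Λ, inferInstance, inferInstance, inferInstance, inferInstance, hne, hunc, hIio,
    fun k => ?_, fun f => ?_, ?_, fun F => ?_, ?_, ?_⟩
  · by_contra hcon
    push Not at hcon
    have h1 : (Set.univ : Set K) ⊆ insert k (Set.Iio k) := by
      intro k' _
      rcases (hcon k').lt_or_eq with h | h
      · exact Or.inr h
      · exact Or.inl h
    have h2 : (Set.univ : Set K).Countable := ((hIio k).insert k).mono h1
    exact Set.not_countable_univ h2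
  · by_contra hcon
    push Not at hcon
    have h1 : (Set.univ : Set Ω) = ⋃ k, Set.Iic (f k) := by
      ext β
      simp only [Set.mem_univ, Set.mem_iUnion, Set.mem_Iic, true_iff]
      exact hcon β
    have h2 : ∀ k, #(Set.Iic (f k)) ≤ #K := by
      intro k
      have h30 : #(Set.Iio (f k)) < Cardinal.aleph 2 := Cardinal.mk_Iio_toType_ord_lt (f k)
      have h3 : #(Set.Iio (f k)) ≤ #K := by
        rw [hK]
        exact Order.lt_succ_iff.1 (lt_of_lt_of_eq h30 h12.symm)
      have h4 : Set.Iic (f k) = insert (f k) (Set.Iio (f k)) := by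
        ext β
        simp only [Set.mem_Iic, Set.mem_insert_iff, Set.mem_Iio]
        exact le_iff_eq_or_lt
      rw [h4]
      refine (Cardinal.mk_insert_le).trans ?_
      exact (add_le_add h3 (Cardinal.one_le_aleph0.trans hK0.le)).trans
        (Cardinal.add_eq_self hK0.le).le
    have h3 : #Ω ≤ #K := by
      rw [← Cardinal.mk_univ, h1]
      refine (Cardinal.mk_iUnion_le _).trans ?_
      calc #K * _ ≤ #K * #K := mul_le_mul' le_rfl (ciSup_le' h2)
        _ = #K := Cardinal.mul_eq_self hK0.le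
    exact absurd h3 (not_le.2 hKΩ)
  · have h1 : #K ≤ #Λ := (hKΩ.trans hΩΛ).le
    obtain ⟨g⟩ := h1
    exact ⟨g, g.injective⟩
  · by_contra hcon
    push Not at hcon
    have h1 : (Set.univ : Set Λ) = ⋃ z, F ⁻¹' {z} := by
      ext a
      simp
    have h2 : #Λ ≤ #Ω := by
      rw [← Cardinal.mk_univ, h1]
      refine (Cardinal.mk_iUnion_le _).trans ?_
      have h3 : #(Ω × ℕ) ≤ #Ω := by
        rw [Cardinal.mk_prod, Cardinal.lift_id, Cardinal.lift_id]
        exact (mul_le_mul' le_rfl Cardinal.mk_le_aleph0).trans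
          (Cardinal.mul_aleph0_eq (hK0.trans hKΩ).le).le
      calc #(Ω × ℕ) * _ ≤ #Ω * ℵ₀ := by
            apply mul_le_mul' h3
            apply ciSup_le'
            intro z
            exact Cardinal.mk_le_aleph0_iff.2 (hcon z).to_subtype
        _ = #Ω := Cardinal.mul_aleph0_eq (hK0.trans hKΩ).le
    exact absurd h2 (not_le.2 hΩΛ)
  · obtain ⟨g⟩ := hN
    have : Nonempty (NmI K Ω Λ) := ⟨fun _ _ => none⟩
    exact ⟨Function.invFun g, Function.invFun_surjective g.injective⟩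
  · have h1 : #(NmI K Ω Λ × (Ω × Λ) × NmI K Ω Λ) ≤ #Λ := by
      simp only [Cardinal.mk_prod, Cardinal.lift_id]
      calc #(NmI K Ω Λ) * (#Ω * #Λ * #(NmI K Ω Λ)) ≤ #Λ * (#Λ * #Λ * #Λ) :=
            mul_le_mul' hN (mul_le_mul' (mul_le_mul' hΩΛ.le le_rfl) hN)
        _ = #Λ := by
            rw [Cardinal.mul_eq_self hc, Cardinal.mul_eq_self hc, Cardinal.mul_eq_self hc]
    have h2 : #(K → NmI K Ω Λ × (Ω × Λ) × NmI K Ω Λ) ≤ #Λ := by
      rw [← Cardinal.power_def]
      conv_rhs => rw [← hc3]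
      exact Cardinal.power_le_power_right h1
    have h3 : #(Option K × (K → NmI K Ω Λ × (Ω × Λ) × NmI K Ω Λ)) ≤ #Λ := by
      rw [Cardinal.mk_prod, Cardinal.lift_id, Cardinal.lift_id, Cardinal.mk_option]
      have h4 : #K + 1 ≤ #Λ := (add_le_add (hKΩ.trans hΩΛ).le (Cardinal.one_le_aleph0.trans hc)).trans
        (Cardinal.add_eq_self hc).le
      exact (mul_le_mul' h4 h2).trans (Cardinal.mul_eq_self hc).le
    obtain ⟨g⟩ := h3
    exact ⟨g, g.injective⟩

end Pool.Agent.W684.CF
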