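import Pool.Agent.W684.CF.Frame

/-!
# Amalgamation of finitely many conditions
-/

set_option autoImplicit false
set_option linter.unusedSectionVars false

namespace Pool.Agent.W684.CF

open Classical

variable {M I W : Type} {rs : I → Prop} [LinearOrder W] [WellFoundedLT W] {Γ : Par M W rs}

/-- the coordinates of rank at most `ρ` -/
def upto (Γ : Par M W rs) (ρ : W) : Set I := {i | Γ.rk i ≤ ρ}

theorem low_upto (ρ : W) : Low Γ (upto Γ ρ) := fun _ hj _ hi => le_of_lt (lt_of_lt_of_le hi hj)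

/-- finitely many values can be decided -/
theorem Val.decideF {β : Type} {T : Set I} (hT : Low Γ T) (F : Finset β)
    (X : β → Option (Nm M rs × Option (I × Nm M rs))) (n : β → ℕ) (t : Cond M rs) :
    ∃ t', le Γ T t' t ∧ ∀ b ∈ F, ∀ x a, X b = some (x, a) →
      ∃ v, Val (le Γ T) t' x (n b) v := by
  induction F using Finset.induction_on with
  | empty => exact ⟨t, le_refl' T t, fun b h => absurd h (Finset.notMem_empty b)⟩
  | insert b F _ ih =>
    obtain ⟨t1, h1, h2⟩ := ih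
    by_cases hb : ∃ x a, X b = some (x, a)
    · obtain ⟨x, a, hb⟩ := hb
      obtain ⟨t2, h3, v, hv⟩ := Val.dense (Γ := Γ) hT t1 x (n b)
      refine ⟨t2, le_trans' hT h3 h1, fun b' h x' a' hx' => ?_⟩
      rcases Finset.mem_insert.1 h with rfl | h
      · rw [hb] at hx'
        have := Option.some_injective _ hx'
        rw [← (Prod.mk.inj this).1]
        exact ⟨v, hv⟩
      · obtain ⟨w, hw⟩ := h2 b' h x' a' hx'
        exact ⟨w, hw.mono hT h3⟩
    · refine ⟨t1, h1, fun b' h x' a' hx' => ?_⟩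
      rcases Finset.mem_insert.1 h with rfl | h
      · exact absurd ⟨x', a', hx'⟩ hb
      · exact h2 b' h x' a' hx'

variable [OrderBot W]

theorem getD_append_map {s : List (Finset ℕ)} {N i : ℕ} (f : ℕ → Finset ℕ) (h1 : s.length ≤ i)
    (h2 : i < s.length + N) : (s ++ (List.range N).map f).getD i ∅ = f (i - s.length) := by
  rw [List.getD_append_right _ _ _ _ h1, List.getD_eq_getElem _ _ (by simp; omega)]
  simp

theorem getD_append_replicate {s : List (Finset ℕ)} {N i : ℕ} (w : Finset ℕ)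
    (h1 : s.length ≤ i) (h2 : i < s.length + N) :
    (s ++ List.replicate N w).getD i ∅ = w := by
  rw [List.getD_append_right _ _ _ _ h1, List.getD_eq_getElem _ _ (by simp; omega)]
  simp

theorem amalg (hG : Good Γ) {α : Type} {ξ ρ : W} (hξ : ξ ≤ ρ) (Z : Finset α)
    (hZ : Z.Nonempty) (p : α → Cond M rs) (q : Cond M rs) (J : Finset I)
    (h0 : ∀ a ∈ Z, le Γ (below Γ ξ) q (p a))
    (h1 : ∀ i, ξ ≤ Γ.rk i → Γ.rk i ≤ ρ → i ∉ J → ∀ a ∈ Z, ∀ b ∈ Z, a ≠ b →
      p a i = CV.top ∨ p b i = CV.top)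
    (hJ : ∀ j ∈ J, Γ.rk j = ρ)
    (h2 : ∀ j ∈ J, ∀ a ∈ Z, ∀ b ∈ Z, (p a j).stem = (p b j).stem)
    (h3 : ∀ j ∈ J, ∀ a ∈ Z, ∀ k ∈ (p a j).pr, ∀ x c ε, Γ.req j k = some (x, some (c, ε)) →
      Supp (below Γ ξ) x ∧ ((∀ b ∈ Z, k ∈ (p b j).pr) ∨
        (ξ ≤ Γ.rk c ∧ (∃ e, Val (le Γ (below Γ ρ)) (p a) ε 0 e) ∧
          (p a c).stem.length ≤ (p a j).stem.length ∧ (∀ b ∈ Z, b ≠ a → p b c = CV.top) ∧
          ∀ j' ∈ J, ∀ b ∈ Z, ∀ k' ∈ (p b j').pr, ∀ x' ε',
            Γ.req j' k' = some (x', some (c, ε')) → j' = j ∧ k' = k ∧ b = a))) :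
    ∃ P, (∀ a ∈ Z, le Γ (upto Γ ρ) P (p a)) ∧ le Γ (below Γ ξ) P q := by
  obtain ⟨a0, ha0⟩ := hZ
  have hlowξ : Low Γ (below Γ ξ) := low_below ξ
  have hlowρ : Low Γ (below Γ ρ) := low_below ρ
  have hξρ : below Γ ξ ⊆ below Γ ρ := fun i (hi : Γ.rk i < ξ) => lt_of_lt_of_le hi hξ
  -- the length
  obtain ⟨m, hm1, hm2⟩ : ∃ m : ℕ, (∀ j ∈ J, (Z.biUnion fun a => (p a j).pr).card ≤ m) ∧
      ∀ j ∈ J, (p a0 j).stem.length ≤ m := by
    refine ⟨J.sup (fun j => (Z.biUnion fun a => (p a j).pr).card) +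
      J.sup fun j => (p a0 j).stem.length, fun j hj => ?_, fun j hj => ?_⟩
    · exact (Finset.le_sup (f := fun j => (Z.biUnion fun a => (p a j).pr).card) hj).trans
        (Nat.le_add_right _ _)
    · exact (Finset.le_sup (f := fun j => (p a0 j).stem.length) hj).trans (Nat.le_add_left _ _)
  -- decisions
  obtain ⟨q', hq', hd⟩ := Val.decideF (Γ := Γ) hlowξ
    (J ×ˢ (J.biUnion fun j => (p a0 j).pr) ×ˢ Finset.range m)
    (fun z : I × M × ℕ => Γ.req z.1 z.2.1) (fun z => z.2.2) q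
  have hd' : ∀ j k i, ∃ v, j ∈ J → k ∈ (p a0 j).pr → i < m → ∀ x a, Γ.req j k = some (x, a) →
      Val (le Γ (below Γ ξ)) q' x i v := by
    intro j k i
    by_cases hj : j ∈ J ∧ k ∈ (p a0 j).pr ∧ i < m ∧ ∃ x a, Γ.req j k = some (x, a)
    · obtain ⟨hj, hk, hi, x, a, hx⟩ := hj
      obtain ⟨v, hv⟩ := hd (j, k, i) (Finset.mem_product.2 ⟨hj, Finset.mem_product.2
        ⟨Finset.mem_biUnion.2 ⟨j, hj, hk⟩, Finset.mem_range.2 hi⟩⟩) x a hx
      refine ⟨v, fun _ _ _ x' a' hx' => ?_⟩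
      rw [hx] at hx'
      have := Option.some_injective _ hx'
      rw [← (Prod.mk.inj this).1]
      exact hv
    · refine ⟨0, fun h4 h5 h6 x a hx => ?_⟩
      exact absurd ⟨h4, h5, h6, x, a, hx⟩ hj
  choose v hv using hd'
  -- the special coordinates
  let sp : I → Prop := fun c => ∃ j ∈ J, ∃ a ∈ Z, ∃ k ∈ (p a j).pr, (¬ ∀ b ∈ Z, k ∈ (p b j).pr) ∧
    ∃ x ε, Γ.req j k = some (x, some (c, ε))
  let w : I → Finset ℕ := fun c => if ∃ j ∈ J, ∃ a ∈ Z, ∃ k ∈ (p a j).pr,
    (¬ ∀ b ∈ Z, k ∈ (p b j).pr) ∧ ∃ x ε, Γ.req j k = some (x, some (c, ε)) ∧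
      Val (le Γ (below Γ ρ)) (p a) ε 0 0 then {0} else ∅
  let pk : I → CV M := fun i => if h : ∃ a ∈ Z, p a i ≠ CV.top then p h.choose i else CV.top
  have hpk1 : ∀ i, ξ ≤ Γ.rk i → Γ.rk i ≤ ρ → i ∉ J → ∀ a ∈ Z, p a i ≠ CV.top →
      pk i = p a i := by
    intro i hi1 hi2 hiJ a ha hne
    have hex : ∃ a ∈ Z, p a i ≠ CV.top := ⟨a, ha, hne⟩
    show (if h : ∃ a ∈ Z, p a i ≠ CV.top then p h.choose i else CV.top) = p a i
    rw [dif_pos hex]
    by_cases hab : hex.choose = a
    · rw [hab]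
    · rcases h1 i hi1 hi2 hiJ _ hex.choose_spec.1 a ha hab with h | h
      · exact absurd h hex.choose_spec.2
      · exact absurd h hne
  have hspfin : {i | sp i}.Finite := by
    refine Set.Finite.subset (s := ⋃ j ∈ J, ⋃ a ∈ Z, ⋃ k ∈ (p a j).pr,
      {c | ∃ x ε, Γ.req j k = some (x, some (c, ε))}) ?_ ?_
    · refine Set.Finite.biUnion (Finset.finite_toSet J) fun j _ => ?_
      refine Set.Finite.biUnion (Finset.finite_toSet Z) fun a _ => ?_
      refine Set.Finite.biUnion (Finset.finite_toSet _) fun k _ => ?_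
      refine Set.Subsingleton.finite ?_
      rintro c ⟨x, ε, hc⟩ c' ⟨x', ε', hc'⟩
      rw [hc] at hc'
      have h5 := Option.some_injective _ (Prod.mk.inj (Option.some_injective _ hc')).2
      exact (Prod.mk.inj h5).1
    · rintro c ⟨j, hj, a, ha, k, hk, _, x, ε, hc⟩
      simp only [Set.mem_iUnion]
      exact ⟨j, hj, a, ha, k, hk, x, ε, hc⟩
  have hspc : ∀ c, sp c → ¬ rs c ∧ (∀ k, Γ.req c k = none) ∧ Γ.rk c < ρ := by
    rintro c ⟨j, hj, a, ha, k, hk, _, x, ε, hc⟩
    obtain ⟨_, h5, _, h6, h7, _⟩ := hG.part j k x c ε hc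
    rw [hJ j hj] at h5
    exact ⟨h6, h7, h5⟩
  -- the definition
  let f : I → CV M := fun i =>
    if Γ.rk i < ξ then q' i
    else if i ∈ J then
      if rs i then ⟨(p a0 i).stem ++ (List.range (m - (p a0 i).stem.length)).map (fun s =>
          (p a0 i).pr.image fun k => v i k ((p a0 i).stem.length + s)),
          Z.biUnion fun a => (p a i).pr⟩
      else ⟨(p a0 i).stem, Z.biUnion fun a => (p a i).pr⟩
    else if sp i then
      ⟨(pk i).stem ++ List.replicate (m - (pk i).stem.length) (w i), (pk i).pr⟩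
    else pk i
  have hf1 : ∀ i, Γ.rk i < ξ → f i = q' i := fun i hi => if_pos hi
  have hf2 : ∀ i ∈ J, rs i → f i = ⟨(p a0 i).stem ++
      (List.range (m - (p a0 i).stem.length)).map (fun s =>
        (p a0 i).pr.image fun k => v i k ((p a0 i).stem.length + s)),
      Z.biUnion fun a => (p a i).pr⟩ := by
    intro i hi hr
    have : ¬ Γ.rk i < ξ := by rw [hJ i hi]; exact not_lt.2 hξ
    simp only [f, if_neg this, if_pos hi, if_pos hr]
  have hf3 : ∀ i ∈ J, ¬ rs i → f i = ⟨(p a0 i).stem, Z.biUnion fun a => (p a i).pr⟩ := by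
    intro i hi hr
    have : ¬ Γ.rk i < ξ := by rw [hJ i hi]; exact not_lt.2 hξ
    simp only [f, if_neg this, if_pos hi, if_neg hr]
  have hf4 : ∀ i, ξ ≤ Γ.rk i → i ∉ J → sp i →
      f i = ⟨(pk i).stem ++ List.replicate (m - (pk i).stem.length) (w i), (pk i).pr⟩ := by
    intro i hi hiJ hs
    simp only [f, if_neg (not_lt.2 hi), if_neg hiJ, if_pos hs]
  have hf5 : ∀ i, ξ ≤ Γ.rk i → i ∉ J → ¬ sp i → f i = pk i := by
    intro i hi hiJ hs
    simp only [f, if_neg (not_lt.2 hi), if_neg hiJ, if_neg hs]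
  have hfin : {i | f i ≠ CV.top}.Finite := by
    refine Set.Finite.subset (((q'.2.1.union (Finset.finite_toSet J)).union hspfin).union
      (Set.Finite.biUnion (Finset.finite_toSet Z) fun a _ => (p a).2.1)) ?_
    intro i hi
    by_cases hc1 : Γ.rk i < ξ
    · have hi' : f i ≠ CV.top := hi
      rw [hf1 i hc1] at hi'
      exact Or.inl (Or.inl (Or.inl hi'))
    by_cases hc2 : i ∈ J
    · exact Or.inl (Or.inl (Or.inr hc2))
    by_cases hc3 : sp i
    · exact Or.inl (Or.inr hc3)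
    have hi' : f i ≠ CV.top := hi
    rw [hf5 i (not_lt.1 hc1) hc2 hc3] at hi'
    right
    by_contra hcon
    apply hi'
    have hex : ¬ ∃ a ∈ Z, p a i ≠ CV.top := by
      rintro ⟨a, ha, hne⟩
      apply hcon
      simp only [Set.mem_iUnion]
      exact ⟨a, ha, hne⟩
    show (if h : ∃ a ∈ Z, p a i ≠ CV.top then p h.choose i else CV.top) = CV.top
    rw [dif_neg hex]
  have hlegit : ∀ i, rs i → Legit (f i) := by
    intro i hr
    by_cases hc1 : Γ.rk i < ξ
    · rw [hf1 i hc1]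
      exact q'.legit hr
    by_cases hc2 : i ∈ J
    · rw [hf2 i hc2 hr]
      have h5 := (p a0).legit hr
      have h6 := hm2 i hc2
      refine ⟨?_, fun s hs => ?_⟩
      · show (Z.biUnion fun a => (p a i).pr).card ≤ _
        rw [List.length_append, List.length_map, List.length_range]
        have := hm1 i hc2
        omega
      · simp only at hs ⊢
        rw [List.length_append, List.length_map, List.length_range] at hs
        by_cases hs' : s < (p a0 i).stem.length
        · rw [List.getD_append _ _ _ _ hs']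
          exact h5.2 s hs'
        · rw [getD_append_map _ (not_lt.1 hs') hs]
          exact Finset.card_image_le.trans (h5.1.trans (not_lt.1 hs'))
    by_cases hc3 : sp i
    · exact absurd hr (hspc i hc3).1
    rw [hf5 i (not_lt.1 hc1) hc2 hc3]
    show Legit (if h : ∃ a ∈ Z, p a i ≠ CV.top then p h.choose i else CV.top)
    split_ifs with h
    · exact (p _).legit hr
    · exact legit_top
  obtain ⟨P, hP⟩ : ∃ P : Cond M rs, ∀ i, P i = f i := ⟨⟨f, hfin, hlegit⟩, fun _ => rfl⟩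
  have hPq' : le Γ (below Γ ξ) P q' := le_of_eq hlowξ fun i hi => by rw [hP, hf1 i hi]
  -- the coordinates of small rank
  have hbelow : ∀ a ∈ Z, le Γ (below Γ ρ) P (p a) := by
    intro a ha i hi
    by_cases hc1 : Γ.rk i < ξ
    · exact le_trans' hlowξ hPq' (le_trans' hlowξ hq' (h0 a ha)) i hc1
    have hi1 := not_lt.1 hc1
    have hiJ : i ∉ J := fun h => absurd (hJ i h) (ne_of_lt hi)
    by_cases htop : p a i = CV.top
    · exact ext_top htop
    have hpk := hpk1 i hi1 (le_of_lt hi) hiJ a ha htop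
    by_cases hs : sp i
    · refine ext_noreq (hspc i hs).2.1 ?_ ?_
      · rw [hP, hf4 i hi1 hiJ hs, hpk]
        exact List.prefix_append _ _
      · rw [hP, hf4 i hi1 hiJ hs, hpk]
    · exact ext_of_eq (by rw [hP, hf5 i hi1 hiJ hs, hpk])
  refine ⟨P, fun a ha j hj => ?_, le_trans' hlowξ hPq' hq'⟩
  by_cases hjρ : Γ.rk j < ρ
  · exact hbelow a ha j hjρ
  have hjρ' : Γ.rk j = ρ := le_antisymm hj (not_lt.1 hjρ)
  have hjξ : ξ ≤ Γ.rk j := by rw [hjρ']; exact hξ
  by_cases hjJ : j ∈ J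
  swap
  · by_cases htop : p a j = CV.top
    · exact ext_top htop
    have hs : ¬ sp j := fun h => absurd (hspc j h).2.2 hjρ
    exact ext_of_eq (by rw [hP, hf5 j hjξ hjJ hs, hpk1 j hjξ hj hjJ a ha htop])
  have hsub : (p a j).pr ⊆ Z.biUnion fun a => (p a j).pr := fun k hk =>
    Finset.mem_biUnion.2 ⟨a, ha, hk⟩
  by_cases hr : rs j
  swap
  · refine ext_same_stem ?_ ?_
    · rw [hP, hf3 j hjJ hr]
      exact h2 j hjJ a ha a0 ha0
    · rw [hP, hf3 j hjJ hr]
      exact hsub
  rw [ext_iff, hP, hf2 j hjJ hr]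
  have hst := h2 j hjJ a ha a0 ha0
  refine ⟨?_, hsub, ?_⟩
  · rw [hst]
    exact List.prefix_append _ _
  intro k hk x act hx s hs1 hs2 t ht n hn hact
  rw [hst] at hs1
  simp only at hs2 ⊢
  rw [List.length_append, List.length_map, List.length_range] at hs2
  have hmlen := hm2 j hjJ
  have hsm : s < m := by omega
  rw [getD_append_map _ hs1 hs2]
  rw [hjρ'] at ht hn hact
  -- the requirement is partly active
  obtain ⟨c, ε, hce⟩ : ∃ c ε, act = some (c, ε) := by
    rcases act with _ | ⟨c, ε⟩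
    · exact absurd hr (hG.always j k x hx).1
    · exact ⟨c, ε, rfl⟩
  rw [hce] at hx hact
  obtain ⟨hsx, halt⟩ := h3 j hjJ a ha k hk x c ε hx
  have htq' : le Γ (below Γ ξ) t q' := le_trans' hlowξ (le_mono hξρ ht) hPq'
  by_cases hroot : ∀ b ∈ Z, k ∈ (p b j).pr
  · have hk0 := hroot a0 ha0
    have h5 := (hv j k s hjJ hk0 hsm x _ hx).mono hlowξ htq'
    have h6 := (Val.iff_of_supp hlowξ hξρ hsx).1 hn
    rw [h6.unique h5]
    refine Finset.mem_image.2 ⟨k, hk0, ?_⟩
    congr 1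
    omega
  · exfalso
    obtain ⟨hcξ, ⟨e, he⟩, hlen, htop, huniq⟩ := halt.resolve_left hroot
    have hsp : sp c := ⟨j, hjJ, a, ha, k, hk, hroot, x, ε, hx⟩
    have hcρ : Γ.rk c < ρ := (hspc c hsp).2.2
    have hcJ : c ∉ J := fun h => absurd (hJ c h) (ne_of_lt hcρ)
    obtain ⟨hs3, e', he', hiff⟩ := hact c ε rfl
    have hee : e' = e := he'.unique (he.mono hlowρ (le_trans' hlowρ ht (hbelow a ha)))
    have hpkc : (pk c).stem = (p a c).stem := by
      by_cases htopc : p a c = CV.top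
      · have hex : ¬ ∃ b ∈ Z, p b c ≠ CV.top := by
          rintro ⟨b, hb, hne⟩
          by_cases hba : b = a
          · rw [hba] at hne
            exact hne htopc
          · exact hne (htop b hb hba)
        show (if h : ∃ a ∈ Z, p a c ≠ CV.top then p h.choose c else CV.top).stem = _
        rw [dif_neg hex, htopc]
      · rw [hpk1 c hcξ (le_of_lt hcρ) hcJ a ha htopc]
    have hstem : (P c).stem = (p a c).stem ++
        List.replicate (m - (p a c).stem.length) (w c) := by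
      rw [hP, hf4 c hcξ hcJ hsp]
      simp only
      rw [hpkc]
    have hlen' : (p a c).stem.length ≤ s := by
      rw [hst] at hlen
      omega
    have hentry : (t c).stem.getD s ∅ = w c := by
      have hpre : (P c).stem <+: (t c).stem := ext_stem (ht c hcρ)
      rw [getD_prefix hpre (by rw [hstem, List.length_append, List.length_replicate]; omega),
        hstem, getD_append_replicate _ hlen' (by omega)]
    rw [hentry, hee] at hiff
    by_cases he0 : e = 0
    · have hw : w c = {0} := by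
        refine if_pos ⟨j, hjJ, a, ha, k, hk, hroot, x, ε, hx, ?_⟩
        subst he0
        exact he
      rw [hw] at hiff
      exact absurd (hiff.2 he0) (Finset.singleton_ne_empty 0)
    · have hw : w c = ∅ := by
        refine if_neg ?_
        rintro ⟨j', hj', b, hb, k', hk', _, x', ε', hx', hv0⟩
        obtain ⟨rfl, rfl, rfl⟩ := huniq j' hj' b hb k' hk' x' ε' hx'
        rw [hx] at hx'
        have h7 := Option.some_injective _ (Prod.mk.inj (Option.some_injective _ hx')).2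
        rw [← (Prod.mk.inj h7).2] at hv0
        exact he0 (he.unique hv0)
      rw [hw] at hiff
      exact he0 (hiff.1 rfl)

end Pool.Agent.W684.CF
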