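import Pool.Agent.W684.CF.Frame

/-!
# Bookkeeping: the index set, and the cardinalities which are needed
-/

set_option autoImplicit false

namespace Pool.Agent.W684.CF

/-- the coordinates: `lz l` Cohen reals which form the Luzin set, `co β a` Cohen reals of rank `β`,
`sl β a` partial slaloms of rank `β`, `dm β` dominating functions of rank `β` -/
inductive Ix (Ω Λ : Type) : Type
  | lz (l : Λ) : Ix Ω Λ
  | co (β : Ω) (a : Λ) : Ix Ω Λ
  | sl (β : Ω) (a : Λ) : Ix Ω Λ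
  | dm (β : Ω) : Ix Ω Λ

/-- the restricted coordinates -/
def Ix.rs {Ω Λ : Type} : Ix Ω Λ → Prop
  | .sl _ _ => True
  | _ => False

/-- the rank -/
def Ix.rk {Ω Λ : Type} : Ix Ω Λ → WithBot Ω
  | .lz _ => ⊥
  | .co β _ => β
  | .sl β _ => β
  | .dm β => β

/-- the raw names for these coordinates; the promises are indexed by `Λ ⊕ K` -/
abbrev NmI (K Ω Λ : Type) : Type := Nm (Λ ⊕ K) (Ix.rs (Ω := Ω) (Λ := Λ))

/-- S_CARD -/
def S_CARD : Prop :=
  ∃ (K Ω Λ : Type) (_ : LinearOrder K) (_ : WellFoundedLT K) (_ : LinearOrder Ω)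
    (_ : WellFoundedLT Ω),
    Uncountable K ∧ (∀ k : K, (Set.Iio k).Countable) ∧ (∀ k : K, ∃ k', k < k') ∧
    (∀ f : K → Ω, ∃ β, ∀ k, f k < β) ∧ (∃ kl : K → Λ, Function.Injective kl) ∧
    (∀ F : Λ → Ω × ℕ, ∃ z, ¬ (F ⁻¹' {z}).Countable) ∧
    (∃ e : Λ → NmI K Ω Λ, Function.Surjective e) ∧
    (∃ code : Option K × (K → NmI K Ω Λ × (Ω × Λ) × NmI K Ω Λ) → Λ, Function.Injective code)

end Pool.Agent.W684.CF
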