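import Pool.Agent.W684.CF.Stage

/-!
# The forcing theorem: assembly
-/

set_option autoImplicit false
set_option linter.unusedSectionVars false

namespace Pool.Agent.W684.CF

open Classical Cardinal Pool.Agent.Helper669.Forcing

variable {M I W : Type} {rs : I → Prop} [LinearOrder W] [WellFoundedLT W] {Γ : Par M W rs}
  [OrderBot W]

theorem ccc_of_luz (hL : Luz Γ Set.univ) {K : Type} [Uncountable K] (g : K → I)
    (hg : Function.Injective g) (hrk : ∀ k, Γ.rk (g k) = ⊥) : CCC Γ := by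
  intro A hA
  have h1 : ℵ₁ ≤ #A := by
    rw [← not_lt, ← Cardinal.succ_aleph0, Order.lt_succ_iff]
    exact fun h => hA (Cardinal.le_aleph0_iff_set_countable.1 h)
  obtain ⟨B, hBA, hB⟩ := Cardinal.le_mk_iff_exists_subset.1 h1
  have h2 : #B ≤ #K := by
    rw [hB, ← not_lt, ← Cardinal.succ_aleph0, Order.lt_succ_iff, Cardinal.mk_le_aleph0_iff]
    exact not_countable
  obtain ⟨e⟩ := h2
  obtain ⟨n, -, q, Z, -, hc, hq, -, -⟩ := hL B Set.univ (by
    rw [Set.countable_univ_iff, ← Cardinal.mk_le_aleph0_iff, hB, not_le]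
    exact Cardinal.aleph0_lt_aleph_one) (fun b => b.1) (fun b => g (e b))
    (fun b _ => hrk _) (fun b _ b' _ h => e.injective (hg h)) 0 (fun _ => 1)
  obtain ⟨a, ha, b, hb, hab⟩ := Finset.one_lt_card.1 hc
  exact ⟨a.1, hBA a.2, b.1, hBA b.2, fun h => hab (Subtype.ext h), q, hq a ha, hq b hb⟩

/-- The forcing theorem, from the parts. -/
theorem exists_forcing (hNC : S_NC) (hDOM : S_DOM) (hPART : S_PART) (hBOOK : S_BOOK) :
    ∃ (K L Ω C P : Type) (_ : LinearOrder Ω) (_ : WellFoundedLT Ω) (_ : Preorder P),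
      Nonempty P ∧
      (∀ A : Set P, (∀ p ∈ A, ∀ q ∈ A, p ≠ q → ¬ ∃ r, r ≤ p ∧ r ≤ q) → A.Countable) ∧
      ∀ p : P, p ∈ PhiHolds P K L Ω C := by
  obtain ⟨K, L, Ω, C, M, I, W, iΩ, iΩw, iW, iWw, iWb, rs, Γ, lc, kl, hc, cc, hG, hlc, hlcrk, hkl,
    hK, hfib, hhc, hhc', hcc⟩ := hBOOK
  have hL : Luz Γ Set.univ := luz M I W rs Γ hG
  have hCCC : CCC Γ := ccc_of_luz hL (fun k => lc (kl k)) (fun k k' h => hkl (hlc h))
    fun k => hlcrk _
  refine ⟨K, L, Ω, C, PP Γ, iΩ, iΩw, inferInstance, ⟨(Cond.one : Cond M rs)⟩, ?_, fun p => ?_⟩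
  · intro A hA
    by_contra hcon
    obtain ⟨p, hp, q, hq, hne, r, h1, h2⟩ := hCCC A hcon
    exact hA p hp q hq hne ⟨r, h1, h2⟩
  · refine ⟨hNC M I W rs Γ hG hL K Unit (fun k => lc (kl k)) (fun k k' h => hkl (hlc h))
      (fun k => hlcrk _) ?_ p, hNC M I W rs Γ hG hL L Ω lc hlc hlcrk hfib p,
      hDOM M I W rs Γ hG hCCC Ω hc hhc hhc' p, hPART M I W rs Γ hG hCCC K C cc hcc p⟩
    intro F
    by_contra hcon
    push Not at hcon
    have h1 : (Set.univ : Set K).Countable := by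
      refine (Set.countable_iUnion hcon).mono fun k _ => ?_
      exact Set.mem_iUnion.2 ⟨F k, rfl⟩
    exact not_countable (Set.countable_univ_iff.1 h1)

end Pool.Agent.W684.CF
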