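import Pool.Agent.W684.CF.Basic
import Pool.Agent.W684.CF.Stm
import Pool.Agent.Helper669.Forcing

/-!
# The preorder of the conditions, the sentence which is forced, good parameters
-/

set_option autoImplicit false
set_option linter.unusedSectionVars false

namespace Pool.Agent.W684.CF

open Classical Pool.Agent.Helper669.Forcing

/-! ### The sentence of the forcing language -/

section Sentence

variable {P : Type} [Preorder P]

/-- `φ if and only if ψ`. -/
def fiff (φ ψ : Set P) : Set P := fand (fimp φ ψ) (fimp ψ φ)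

/-- Forcing version of `Slalom`. -/
def SlalomN (h : ℕ → ℕ) (S : ℕ → ℕ → Set P) : Set P :=
  fall fun n => fall fun t : Finset ℕ => fimp (fground (h n < t.card))
    (fex fun v => fand (fground (v ∈ t)) (fnot (meets (S n v))))

/-- Forcing version of `NotCaptured`; functions are given by names of their graphs. -/
def NotCapturedN (P : Type) [Preorder P] (M M' : Type) : Set P :=
  fex fun y : M → ℕ → ℕ → Set P => fand (fall fun l => IsFun (y l))
    (fall fun S : M' → ℕ → ℕ → Set P => fimp (fall fun i => SlalomN (fun n => 2 ^ (3 * n)) (S i))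
      (fex fun l => fall fun i => fall fun N => fex fun n => fand (fground (N ≤ n))
        (fex fun v => fand (meets (y l n v)) (fnot (meets (S i n v))))))

/-- Forcing version of `Dominated`. -/
def DominatedN (P : Type) [Preorder P] (Ω : Type) [LinearOrder Ω] : Set P :=
  fex fun f : Ω → ℕ → ℕ → Set P => fand (fall fun β => IsFun (f β))
    (fall fun g : ℕ → ℕ → Set P => fimp (IsFun g)
      (fex fun β => fall fun β' => fimp (fground (β ≤ β'))
        (fex fun N => fall fun n => fimp (fground (N ≤ n))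
          (fex fun a => fex fun b => fand (meets (g n a))
            (fand (meets (f β' n b)) (fground (a ≤ b)))))))

/-- Forcing version of `PartlyCaptured`. -/
def PartlyCapturedN (P : Type) [Preorder P] (K C : Type) : Set P :=
  fex fun d : C → ℕ → Set P => fall fun x : K → ℕ → ℕ → Set P =>
    fimp (fall fun k => IsFun (x k))
      (fall fun E : K → C → Set P => fex fun S : ℕ → ℕ → Set P =>
        fand (SlalomN (fun n => n) S)
          (fall fun k => fex fun c => fex fun N => fall fun n => fimp (fground (N ≤ n))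
            (fimp (fiff (meets (d c n)) (meets (E k c)))
              (fex fun v => fand (meets (x k n v)) (meets (S n v))))))

/-- The sentence `PhiFor K L Ω C` of the forcing language. -/
def PhiHolds (P : Type) [Preorder P] (K L Ω C : Type) [LinearOrder Ω] : Set P :=
  fand (NotCapturedN P K Unit) (fand (NotCapturedN P L Ω)
    (fand (DominatedN P Ω) (PartlyCapturedN P K C)))

end Sentence

/-! ### The preorder of the conditions -/

variable {M I W : Type} {rs : I → Prop} [LinearOrder W] [WellFoundedLT W]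

/-- the conditions, with the order given by the parameters -/
def PP (_Γ : Par M W rs) : Type := Cond M rs

variable {Γ : Par M W rs}

/-- an element of `PP Γ` as a condition -/
abbrev PP.toC (r : PP Γ) : Cond M rs := r

noncomputable instance : Preorder (PP Γ) where
  le q p := le Γ Set.univ q p
  le_refl p := le_refl' Set.univ p
  le_trans _ _ _ h1 h2 := le_trans' low_univ h1 h2

theorem PP.le_def {q p : PP Γ} : q ≤ p ↔ le Γ Set.univ q p := Iff.rfl

/-! ### Good parameters -/

/-- good parameters: there are unrestricted coordinates with requirements which are always active,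
restricted coordinates with requirements which depend on a Cohen coordinate `c` and a name `ε`,
and Cohen coordinates, which have no requirements -/
structure Good [OrderBot W] (Γ : Par M W rs) : Prop where
  always : ∀ j k x, Γ.req j k = some (x, none) → ¬ rs j ∧ Supp (below Γ (Γ.rk j)) x
  part : ∀ j k x c ε, Γ.req j k = some (x, some (c, ε)) →
    rs j ∧ Γ.rk c < Γ.rk j ∧ ⊥ < Γ.rk c ∧ ¬ rs c ∧ (∀ k', Γ.req c k' = none) ∧
      Supp (below Γ (Γ.rk j)) x ∧ Supp (below Γ (Γ.rk j)) ε
  bot : ∀ j, Γ.rk j = ⊥ → ¬ rs j ∧ ∀ k, Γ.req j k = none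
  inj : ∀ j k k' x x' c ε ε', Γ.req j k = some (x, some (c, ε)) →
    Γ.req j k' = some (x', some (c, ε')) → k = k'
  bdd : ∀ j, ∀ ξ < Γ.rk j,
    {k | ∃ x c ε, Γ.req j k = some (x, some (c, ε)) ∧ Γ.rk c < ξ}.Countable
  cof : ∀ j k x c ε, Γ.req j k = some (x, some (c, ε)) → ∀ ξ < Γ.rk j,
    ∃ k' x' c' ε', Γ.req j k' = some (x', some (c', ε')) ∧ ξ < Γ.rk c'
  supp : ∀ j k₀ x₀ c₀ ε₀, Γ.req j k₀ = some (x₀, some (c₀, ε₀)) → ∃ ξ < Γ.rk j,
    ∀ k x c ε, Γ.req j k = some (x, some (c, ε)) → Supp (below Γ ξ) x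
  share : ∀ j j', Γ.rk j = Γ.rk j' → j ≠ j' →
    {k | ∃ x c ε k' x' ε', Γ.req j k = some (x, some (c, ε)) ∧
      Γ.req j' k' = some (x', some (c, ε'))}.Countable

/-- the Luzin property: from uncountably many conditions `p a` and Cohen coordinates `l a` of the
lowest rank one gets many conditions with a common extension which decides different values at
the same place for the corresponding Cohen reals -/
def Luz [OrderBot W] (Γ : Par M W rs) (T : Set I) : Prop :=
  ∀ (α : Type) (A : Set α), ¬ A.Countable → ∀ (p : α → Cond M rs) (l : α → I),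
    (∀ a ∈ A, Γ.rk (l a) = ⊥) → Set.InjOn l A → ∀ (m : ℕ) (h : ℕ → ℕ),
      ∃ n, m ≤ n ∧ ∃ (q : Cond M rs) (Z : Finset α), (↑Z : Set α) ⊆ A ∧ h n < Z.card ∧
        (∀ a ∈ Z, le Γ T q (p a)) ∧ (∀ a ∈ Z, n < (q (l a)).stem.length) ∧
        ∀ a ∈ Z, ∀ b ∈ Z, a ≠ b →
          ((q (l a)).stem.getD n ∅).card ≠ ((q (l b)).stem.getD n ∅).card

/-- S_LUZ -/
def S_LUZ : Prop :=
  ∀ (M I W : Type) (rs : I → Prop) [LinearOrder W] [WellFoundedLT W] [OrderBot W]
    (Γ : Par M W rs), Good Γ → Luz Γ Set.univ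

/-! ### The parameters which are needed -/

/-- S_BOOK: there are good parameters with all the coordinates which are needed. -/
def S_BOOK : Prop :=
  ∃ (K L Ω C M I W : Type) (_ : LinearOrder Ω) (_ : WellFoundedLT Ω) (_ : LinearOrder W)
    (_ : WellFoundedLT W) (_ : OrderBot W) (rs : I → Prop) (Γ : Par M W rs) (lc : L → I)
    (kl : K → L) (hc : Ω → I) (cc : C → I),
    Good Γ ∧ Function.Injective lc ∧ (∀ l, Γ.rk (lc l) = ⊥) ∧ Function.Injective kl ∧
    Uncountable K ∧ (∀ F : L → Ω × ℕ, ∃ z, ¬ (F ⁻¹' {z}).Countable) ∧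
    (∀ β, ¬ rs (hc β)) ∧
    (∀ x : Nm M rs, ∃ β₀, ∀ β, β₀ ≤ β → ∃ k, Γ.req (hc β) k = some (x, none)) ∧
    (∀ (x : K → Nm M rs) (E : K → C → Nm M rs), ∃ j, ∀ k, ∃ m c,
      Γ.req j m = some (x k, some (cc c, E k c)))

/-- the countable chain condition -/
def CCC (Γ : Par M W rs) : Prop :=
  ∀ A : Set (Cond M rs), ¬ A.Countable → ∃ p ∈ A, ∃ q ∈ A, p ≠ q ∧
    ∃ r, le Γ Set.univ r p ∧ le Γ Set.univ r q

/-- S_RAWF: names for functions can be replaced by raw names -/
def S_RAWF : Prop :=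
  ∀ (M I W : Type) (rs : I → Prop) [LinearOrder W] [WellFoundedLT W] (Γ : Par M W rs), CCC Γ →
    ∀ (x : ℕ → ℕ → Set (PP Γ)) (p : PP Γ), p ∈ IsFun x →
      ∃ X : Nm M rs, ∀ q : PP Γ, q ≤ p → ∀ n v, Val (le Γ Set.univ) q X n v → q ∈ meets (x n v)

/-- S_RAWB: names for truth values can be replaced by raw names -/
def S_RAWB : Prop :=
  ∀ (M I W : Type) (rs : I → Prop) [LinearOrder W] [WellFoundedLT W] (Γ : Par M W rs), CCC Γ →
    ∀ E : Set (PP Γ), ∃ e : Nm M rs, ∀ (q : PP Γ) (v : ℕ), Val (le Γ Set.univ) q e 0 v →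
      (v = 0 → ∀ r : PP Γ, r ≤ q → r ∉ meets E) ∧ (v ≠ 0 → q ∈ meets E)

/-- S_EXT: the stem at a coordinate can be made long, without new promises -/
def S_EXT : Prop :=
  ∀ (M I W : Type) (rs : I → Prop) [LinearOrder W] [WellFoundedLT W] [OrderBot W]
    (Γ : Par M W rs), Good Γ → ∀ (j : I) (N : ℕ) (p : Cond M rs),
      ∃ p', le Γ Set.univ p' p ∧ N ≤ (p' j).stem.length ∧ (p' j).pr = (p j).pr

/-- S_NC: `NotCaptured M M'` is forced -/
def S_NC : Prop :=
  ∀ (M I W : Type) (rs : I → Prop) [LinearOrder W] [WellFoundedLT W] [OrderBot W]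
    (Γ : Par M W rs), Good Γ → Luz Γ Set.univ → ∀ (L M' : Type) (lc : L → I),
      Function.Injective lc → (∀ l, Γ.rk (lc l) = ⊥) →
      (∀ F : L → M' × ℕ, ∃ z, ¬ (F ⁻¹' {z}).Countable) → ∀ p : PP Γ, p ∈ NotCapturedN (PP Γ) L M'

/-- S_DOM: `Dominated Ω` is forced -/
def S_DOM : Prop :=
  ∀ (M I W : Type) (rs : I → Prop) [LinearOrder W] [WellFoundedLT W] [OrderBot W]
    (Γ : Par M W rs), Good Γ → CCC Γ → ∀ (Ω : Type) [LinearOrder Ω] (hc : Ω → I),
      (∀ β, ¬ rs (hc β)) →
      (∀ x : Nm M rs, ∃ β₀, ∀ β, β₀ ≤ β → ∃ k, Γ.req (hc β) k = some (x, none)) →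
      ∀ p : PP Γ, p ∈ DominatedN (PP Γ) Ω

/-- S_PART: `PartlyCaptured K C` is forced -/
def S_PART : Prop :=
  ∀ (M I W : Type) (rs : I → Prop) [LinearOrder W] [WellFoundedLT W] [OrderBot W]
    (Γ : Par M W rs), Good Γ → CCC Γ → ∀ (K C : Type) (cc : C → I),
      (∀ (x : K → Nm M rs) (E : K → C → Nm M rs), ∃ j, ∀ k, ∃ m c,
        Γ.req j m = some (x k, some (cc c, E k c))) →
      ∀ p : PP Γ, p ∈ PartlyCapturedN (PP Γ) K C

end Pool.Agent.W684.CF
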