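import Pool.Agent.W684.CF.Amalg

/-!
# Preparation of a condition: long stems at the restricted coordinates of the highest rank
-/

set_option autoImplicit false
set_option linter.unusedSectionVars false

namespace Pool.Agent.W684.CF

open Classical

variable {M I W : Type} {rs : I → Prop} [LinearOrder W] [WellFoundedLT W] {Γ : Par M W rs}
  [OrderBot W]

/-- the name `ε` of a requirement -/
def epsOf (z : Option (Nm M rs × Option (I × Nm M rs))) :
    Option (Nm M rs × Option (I × Nm M rs)) :=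
  match z with
  | some (_, some (_, ε)) => some (ε, none)
  | _ => none

/-- the length of the stem at the coordinate `c` of a requirement -/
def lenOf (t : Cond M rs) (z : Option (Nm M rs × Option (I × Nm M rs))) : ℕ :=
  match z with
  | some (_, some (c, _)) => (t c).stem.length
  | _ => 0

theorem prep (hG : Good Γ) {ξ ρ : W} (hξ : ξ ≤ ρ) (J : Finset I)
    (hJ : ∀ j ∈ J, Γ.rk j = ρ) (hJr : ∀ j ∈ J, rs j) (p : Cond M rs)
    (hsupp : ∀ j ∈ J, ∀ k ∈ (p j).pr, ∀ x c ε, Γ.req j k = some (x, some (c, ε)) →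
      Supp (below Γ ξ) x) :
    ∃ p', le Γ (upto Γ ρ) p' p ∧ (∀ i, ρ ≤ Γ.rk i → i ∉ J → p' i = p i) ∧
      (∀ j ∈ J, (p' j).pr = (p j).pr) ∧
      ∀ j ∈ J, ∀ k ∈ (p j).pr, ∀ x c ε, Γ.req j k = some (x, some (c, ε)) → ξ ≤ Γ.rk c →
        (∃ e, Val (le Γ (below Γ ρ)) p' ε 0 e) ∧
          (p' c).stem.length ≤ (p' j).stem.length := by
  have hlowξ : Low Γ (below Γ ξ) := low_below ξ
  have hlowρ : Low Γ (below Γ ρ) := low_below ρ
  have hξρ : below Γ ξ ⊆ below Γ ρ := fun i (hi : Γ.rk i < ξ) => lt_of_lt_of_le hi hξ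
  obtain ⟨t0, ht0, hd0⟩ := Val.decideF (Γ := Γ) hlowρ
    (J ×ˢ (J.biUnion fun j => (p j).pr)) (fun z : I × M => epsOf (Γ.req z.1 z.2))
    (fun _ => 0) p
  obtain ⟨N, hN1, hN2⟩ : ∃ N : ℕ, (∀ j ∈ J, (p j).stem.length ≤ N) ∧
      ∀ j ∈ J, ∀ k ∈ (p j).pr, ∀ x c ε, Γ.req j k = some (x, some (c, ε)) →
        (t0 c).stem.length ≤ N := by
    refine ⟨J.sup (fun j => (p j).stem.length) + (J ×ˢ (J.biUnion fun j => (p j).pr)).sup
      fun z : I × M => lenOf t0 (Γ.req z.1 z.2), fun j hj => ?_, fun j hj k hk x c ε hx => ?_⟩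
    · exact (Finset.le_sup (f := fun j => (p j).stem.length) hj).trans (Nat.le_add_right _ _)
    · have h1 : (j, k) ∈ J ×ˢ (J.biUnion fun j => (p j).pr) :=
        Finset.mem_product.2 ⟨hj, Finset.mem_biUnion.2 ⟨j, hj, hk⟩⟩
      have h2 : lenOf t0 (Γ.req j k) ≤ _ :=
        Finset.le_sup (f := fun z : I × M => lenOf t0 (Γ.req z.1 z.2)) h1
      rw [hx] at h2
      have h3 : lenOf t0 (some (x, some (c, ε))) = (t0 c).stem.length := rfl
      rw [h3] at h2
      exact h2.trans (Nat.le_add_left _ _)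
  obtain ⟨t1, ht1, hd1⟩ := Val.decideF (Γ := Γ) hlowξ
    (J ×ˢ (J.biUnion fun j => (p j).pr) ×ˢ Finset.range N)
    (fun z : I × M × ℕ => Γ.req z.1 z.2.1) (fun z => z.2.2) t0
  have hd' : ∀ j k i, ∃ v, j ∈ J → k ∈ (p j).pr → i < N → ∀ x a, Γ.req j k = some (x, a) →
      Val (le Γ (below Γ ξ)) t1 x i v := by
    intro j k i
    by_cases hj : j ∈ J ∧ k ∈ (p j).pr ∧ i < N ∧ ∃ x a, Γ.req j k = some (x, a)
    · obtain ⟨hj, hk, hi, x, a, hx⟩ := hj
      obtain ⟨v, hv⟩ := hd1 (j, k, i) (Finset.mem_product.2 ⟨hj, Finset.mem_product.2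
        ⟨Finset.mem_biUnion.2 ⟨j, hj, hk⟩, Finset.mem_range.2 hi⟩⟩) x a hx
      refine ⟨v, fun _ _ _ x' a' hx' => ?_⟩
      rw [hx] at hx'
      have := Option.some_injective _ hx'
      rw [← (Prod.mk.inj this).1]
      exact hv
    · refine ⟨0, fun h4 h5 h6 x a hx => ?_⟩
      exact absurd ⟨h4, h5, h6, x, a, hx⟩ hj
  choose v hv using hd'
  let t2 : Cond M rs := mix (below Γ ξ) t1 t0
  have ht2 : le Γ (below Γ ρ) t2 t0 := mix_le hlowξ ht1
  have ht21 : le Γ (below Γ ξ) t2 t1 := mix_eq hlowξ t1 t0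
  let f : I → CV M := fun i =>
    if Γ.rk i < ρ then t2 i
    else if i ∈ J then ⟨(p i).stem ++ (List.range (N - (p i).stem.length)).map (fun s =>
          (p i).pr.image fun k => v i k ((p i).stem.length + s)), (p i).pr⟩
    else p i
  have hf1 : ∀ i, Γ.rk i < ρ → f i = t2 i := fun i hi => if_pos hi
  have hf2 : ∀ i ∈ J, f i = ⟨(p i).stem ++
      (List.range (N - (p i).stem.length)).map (fun s =>
        (p i).pr.image fun k => v i k ((p i).stem.length + s)), (p i).pr⟩ := by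
    intro i hi
    have : ¬ Γ.rk i < ρ := by rw [hJ i hi]; exact lt_irrefl _
    simp only [f, if_neg this, if_pos hi]
  have hf3 : ∀ i, ¬ Γ.rk i < ρ → i ∉ J → f i = p i := by
    intro i hi hiJ
    simp only [f, if_neg hi, if_neg hiJ]
  have hfin : {i | f i ≠ CV.top}.Finite := by
    refine Set.Finite.subset ((t2.2.1.union (Finset.finite_toSet J)).union p.2.1) ?_
    intro i hi
    have hi' : f i ≠ CV.top := hi
    by_cases hc1 : Γ.rk i < ρ
    · rw [hf1 i hc1] at hi'
      exact Or.inl (Or.inl hi')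
    by_cases hc2 : i ∈ J
    · exact Or.inl (Or.inr hc2)
    rw [hf3 i hc1 hc2] at hi'
    exact Or.inr hi'
  have hlegit : ∀ i, rs i → Legit (f i) := by
    intro i hr
    by_cases hc1 : Γ.rk i < ρ
    · rw [hf1 i hc1]
      exact t2.legit hr
    by_cases hc2 : i ∈ J
    · rw [hf2 i hc2]
      have h5 := p.legit hr
      refine ⟨?_, fun s hs => ?_⟩
      · show (p i).pr.card ≤ _
        rw [List.length_append, List.length_map, List.length_range]
        have := h5.1
        omega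
      · simp only at hs ⊢
        rw [List.length_append, List.length_map, List.length_range] at hs
        by_cases hs' : s < (p i).stem.length
        · rw [List.getD_append _ _ _ _ hs']
          exact h5.2 s hs'
        · rw [getD_append_map _ (not_lt.1 hs') hs]
          exact Finset.card_image_le.trans (h5.1.trans (not_lt.1 hs'))
    rw [hf3 i hc1 hc2]
    exact p.legit hr
  obtain ⟨P, hP⟩ : ∃ P : Cond M rs, ∀ i, P i = f i := ⟨⟨f, hfin, hlegit⟩, fun _ => rfl⟩
  have hPt2 : le Γ (below Γ ρ) P t2 := le_of_eq hlowρ fun i hi => by rw [hP, hf1 i hi]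
  have hPt0 : le Γ (below Γ ρ) P t0 := le_trans' hlowρ hPt2 ht2
  refine ⟨P, ?_, ?_, ?_, ?_⟩
  · intro j hj
    by_cases hc1 : Γ.rk j < ρ
    · exact le_trans' hlowρ hPt0 ht0 j hc1
    by_cases hc2 : j ∈ J
    swap
    · exact ext_of_eq (by rw [hP, hf3 j hc1 hc2])
    rw [ext_iff, hP, hf2 j hc2]
    refine ⟨List.prefix_append _ _, Finset.Subset.refl _, ?_⟩
    intro k hk x act hx s hs1 hs2 t ht n hn hact
    simp only at hs2 ⊢
    rw [List.length_append, List.length_map, List.length_range] at hs2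
    rw [getD_append_map _ hs1 hs2]
    rw [hJ j hc2] at ht hn hact
    obtain ⟨c, ε, hce⟩ : ∃ c ε, act = some (c, ε) := by
      rcases act with _ | ⟨c, ε⟩
      · exact absurd (hJr j hc2) (hG.always j k x hx).1
      · exact ⟨c, ε, rfl⟩
    rw [hce] at hx
    have hsN : s < N := by
      have := hN1 j hc2
      omega
    have h1 := (Val.iff_of_supp hlowξ hξρ (hsupp j hc2 k hk x c ε hx)).1 hn
    have h2 : le Γ (below Γ ξ) t t1 :=
      le_trans' hlowξ (le_mono hξρ ht) (le_trans' hlowξ (le_mono hξρ hPt2) ht21)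
    rw [h1.unique ((hv j k s hc2 hk hsN x _ hx).mono hlowξ h2)]
    refine Finset.mem_image.2 ⟨k, hk, ?_⟩
    congr 1
    omega
  · intro i hi hiJ
    rw [hP, hf3 i (not_lt.2 hi) hiJ]
  · intro j hj
    rw [hP, hf2 j hj]
  · intro j hj k hk x c ε hx hc
    constructor
    · obtain ⟨e, he⟩ := hd0 (j, k) (Finset.mem_product.2 ⟨hj, Finset.mem_biUnion.2 ⟨j, hj, hk⟩⟩)
        ε none (by simp only [hx, epsOf])
      exact ⟨e, he.mono hlowρ hPt0⟩
    · obtain ⟨_, h5, _⟩ := hG.part j k x c ε hx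
      rw [hJ j hj] at h5
      have h6 : P c = t0 c := by
        rw [hP, hf1 c h5]
        exact mix_notMem _ _ (not_lt.2 hc)
      rw [h6, hP, hf2 j hj]
      simp only
      rw [List.length_append, List.length_map, List.length_range]
      have h7 := hN2 j hj k hk x c ε hx
      have h8 := hN1 j hj
      omega

end Pool.Agent.W684.CF
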