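import Pool.Agent.W684.CF.Thin

/-!
# The Luzin property: the restricted coordinates
-/

set_option autoImplicit false
set_option linter.unusedSectionVars false

namespace Pool.Agent.W684.CF

open Classical

variable {M I W : Type} {rs : I → Prop} [LinearOrder W] [WellFoundedLT W] {Γ : Par M W rs}
  [OrderBot W]

/-- the coordinate `c` of a requirement -/
def cOf (z : Option (Nm M rs × Option (I × Nm M rs))) : Finset I :=
  match z with
  | some (_, some (c, _)) => {c}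
  | _ => ∅

theorem mem_cOf {z : Option (Nm M rs × Option (I × Nm M rs))} {c : I} (h : c ∈ cOf z) :
    ∃ x ε, z = some (x, some (c, ε)) := by
  rcases z with _ | ⟨x, _ | ⟨c', ε⟩⟩
  · simp [cOf] at h
  · simp [cOf] at h
  · simp only [cOf, Finset.mem_singleton] at h
    subst h
    exact ⟨x, ε, rfl⟩

theorem luz_stage (hG : Good Γ) {ρ : W} (hρ : ⊥ < ρ)
    (ih : ∀ ξ, ξ ≤ ρ → ⊥ < ξ → Luz Γ (below Γ ξ)) : Luz Γ (upto Γ ρ) := by
  intro α A hA p l hl hinj m h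
  -- first thinning
  obtain ⟨A1, R1, hA1A, hA1, hR1, hd1⟩ := Helper126.delta_system
    (fun a => ((p a).supp).disjSum ((p a).supp.biUnion fun j => (p a j).pr.image fun k => (j, k)))
    A hA
  have hdsupp : ∀ a ∈ A1, ∀ b ∈ A1, a ≠ b → ∀ i, p a i ≠ CV.top → p b i ≠ CV.top →
      Sum.inl i ∈ R1 := by
    intro a ha b hb hab i h1 h2
    exact hd1 a ha b hb hab (Sum.inl i) (Finset.inl_mem_disjSum.2 (Cond.mem_supp.2 h1))
      (Finset.inl_mem_disjSum.2 (Cond.mem_supp.2 h2))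
  have hpr : ∀ a j k, k ∈ (p a j).pr → Sum.inr (j, k) ∈
      ((p a).supp).disjSum ((p a).supp.biUnion fun j => (p a j).pr.image fun k => (j, k)) := by
    intro a j k hk
    refine Finset.inr_mem_disjSum.2 (Finset.mem_biUnion.2 ⟨j, Cond.mem_supp.2 fun htop => ?_,
      Finset.mem_image.2 ⟨k, hk, rfl⟩⟩)
    rw [htop] at hk
    simp at hk
  have hdpr : ∀ a ∈ A1, ∀ b ∈ A1, a ≠ b → ∀ j k, k ∈ (p a j).pr → k ∈ (p b j).pr →
      Sum.inr (j, k) ∈ R1 := by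
    intro a ha b hb hab j k h1 h2
    exact hd1 a ha b hb hab (Sum.inr (j, k)) (hpr a j k h1) (hpr b j k h2)
  have hRpr : ∀ a ∈ A1, ∀ j k, Sum.inr (j, k) ∈ R1 → k ∈ (p a j).pr := by
    intro a ha j k h1
    obtain ⟨j', _, h2⟩ := Finset.mem_biUnion.1 (Finset.inr_mem_disjSum.1 (hR1 a ha h1))
    obtain ⟨k', hk', h3⟩ := Finset.mem_image.1 h2
    obtain ⟨rfl, rfl⟩ := Prod.mk.inj h3
    exact hk'
  let J : Finset I := R1.toLeft.filter fun i => Γ.rk i = ρ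
  let Jr : Finset I := J.filter rs
  have hJ : ∀ j, j ∈ J ↔ Sum.inl j ∈ R1 ∧ Γ.rk j = ρ := fun j => by
    simp only [J, Finset.mem_filter, Finset.mem_toLeft]
  have hJr : ∀ j, j ∈ Jr ↔ j ∈ J ∧ rs j := fun j => Finset.mem_filter
  -- is there a requirement?
  obtain ⟨act, hact⟩ : ∃ act : Prop, act ↔ ∃ j ∈ Jr, ∃ k x c ε,
      Γ.req j k = some (x, some (c, ε)) := ⟨_, Iff.rfl⟩
  have hlim : ∀ F : Finset W, (∀ w ∈ F, w < ρ) →
      ∃ ξ, ξ ≤ ρ ∧ ⊥ < ξ ∧ (∀ w ∈ F, w < ξ) ∧ (act → ξ < ρ) ∧ (¬ act → ξ = ρ) := by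
    intro F hF
    by_cases ha : act
    · obtain ⟨j, hj, k, x, c, ε, hx⟩ := hact.1 ha
      have hjρ : Γ.rk j = ρ := ((hJ j).1 ((hJr j).1 hj).1).2
      have hne : (insert ⊥ F).Nonempty := Finset.insert_nonempty _ _
      have h1 : (insert ⊥ F).max' hne < ρ := by
        rcases Finset.mem_insert.1 (Finset.max'_mem _ hne) with h | h
        · rw [h]
          exact hρ
        · exact hF _ h
      obtain ⟨k', x', c', ε', hx', hc'⟩ := hG.cof j k x c ε hx _ (by rw [hjρ]; exact h1)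
      obtain ⟨_, h2, _⟩ := hG.part j k' x' c' ε' hx'
      rw [hjρ] at h2
      refine ⟨Γ.rk c', h2.le, ?_, fun w hw => ?_, fun _ => h2, fun h => absurd ha h⟩
      · exact lt_of_le_of_lt (Finset.le_max' _ _ (Finset.mem_insert_self _ _)) hc'
      · exact lt_of_le_of_lt (Finset.le_max' _ _ (Finset.mem_insert_of_mem hw)) hc'
    · exact ⟨ρ, le_rfl, hρ, hF, fun h => absurd h ha, fun _ => rfl⟩
  -- the supports of the names
  have hsup : ∀ j, ∃ ξ, j ∈ Jr → ξ < ρ ∧ ∀ k x c ε, Γ.req j k = some (x, some (c, ε)) →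
      Supp (below Γ ξ) x := by
    intro j
    by_cases hj : j ∈ Jr ∧ ∃ k x c ε, Γ.req j k = some (x, some (c, ε))
    · obtain ⟨hj, k, x, c, ε, hx⟩ := hj
      obtain ⟨ξ, h1, h2⟩ := hG.supp j k x c ε hx
      rw [((hJ j).1 ((hJr j).1 hj).1).2] at h1
      exact ⟨ξ, fun _ => ⟨h1, h2⟩⟩
    · refine ⟨⊥, fun h1 => ⟨hρ, fun k x c ε hx => ?_⟩⟩
      exact absurd ⟨h1, k, x, c, ε, hx⟩ hj
  choose ξj hξj using hsup
  obtain ⟨ξ0, hξ0ρ, -, hξ0F, hξ0act, -⟩ := hlim (Jr.image ξj) (by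
    intro w hw
    obtain ⟨j, hj, rfl⟩ := Finset.mem_image.1 hw
    exact (hξj j hj).1)
  have hsupp0 : ∀ j ∈ Jr, ∀ k x c ε, Γ.req j k = some (x, some (c, ε)) →
      Supp (below Γ ξ0) x := by
    intro j hj k x c ε hx
    refine ((hξj j hj).2 k x c ε hx).mono fun i (hi : Γ.rk i < ξj j) => ?_
    exact hi.trans (hξ0F _ (Finset.mem_image_of_mem _ hj))
  -- the exceptional sets
  have hexc : ∀ C : I → Set M, (∀ j ∈ Jr, (C j).Countable) →
      {a ∈ A1 | ∃ j ∈ Jr, ∃ k ∈ C j, k ∈ (p a j).pr ∧ Sum.inr (j, k) ∉ R1}.Countable := by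
    intro C hC
    refine Set.Countable.mono (s₂ := ⋃ j ∈ Jr, ⋃ k ∈ C j,
      {a ∈ A1 | k ∈ (p a j).pr ∧ Sum.inr (j, k) ∉ R1}) ?_ ?_
    · rintro a ⟨ha, j, hj, k, hk, h1, h2⟩
      simp only [Set.mem_iUnion]
      exact ⟨j, hj, k, hk, ha, h1, h2⟩
    · refine Set.Countable.biUnion (Finset.countable_toSet Jr) fun j hj => ?_
      refine Set.Countable.biUnion (hC j hj) fun k _ => ?_
      refine Set.Subsingleton.countable ?_
      rintro a ⟨ha, h1, h2⟩ b ⟨hb, h3, _⟩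
      by_contra hab
      exact h2 (hdpr a ha b hb hab j k h1 h3)
  have hbddc : ∀ ξ, (act → ξ < ρ) → ∀ j ∈ Jr,
      {k | ∃ x c ε, Γ.req j k = some (x, some (c, ε)) ∧ Γ.rk c < ξ}.Countable := by
    intro ξ hξ j hj
    by_cases ha : act
    · exact hG.bdd j ξ (by rw [((hJ j).1 ((hJr j).1 hj).1).2]; exact hξ ha)
    · refine Set.Countable.mono ?_ Set.countable_empty
      rintro k ⟨x, c, ε, hx, _⟩
      exact absurd (hact.2 ⟨j, hj, k, x, c, ε, hx⟩) ha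
  let B : I → Set M := fun j => {k | ∃ x c ε, Γ.req j k = some (x, some (c, ε)) ∧ Γ.rk c < ξ0} ∪
    ⋃ j' ∈ Jr.filter (· ≠ j), {k | ∃ x c ε k' x' ε', Γ.req j k = some (x, some (c, ε)) ∧
      Γ.req j' k' = some (x', some (c, ε'))}
  have hB : ∀ j ∈ Jr, (B j).Countable := by
    intro j hj
    refine (hbddc ξ0 hξ0act j hj).union ?_
    refine Set.Countable.biUnion (Finset.countable_toSet _) fun j' hj' => ?_
    obtain ⟨h1, h2⟩ := Finset.mem_filter.1 hj'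
    refine hG.share j j' ?_ (Ne.symm h2)
    rw [((hJ j).1 ((hJr j).1 hj).1).2, ((hJ j').1 ((hJr j').1 h1).1).2]
  have hA2 := diff_uncountable hA1 (hexc B hB)
  obtain ⟨A2, hA2def⟩ : ∃ A2 : Set α, A2 = A1 \
    {a ∈ A1 | ∃ j ∈ Jr, ∃ k ∈ B j, k ∈ (p a j).pr ∧ Sum.inr (j, k) ∉ R1} := ⟨_, rfl⟩
  rw [← hA2def] at hA2
  have hA2' : ∀ a ∈ A2, a ∈ A1 ∧ ∀ j ∈ Jr, ∀ k ∈ (p a j).pr, Sum.inr (j, k) ∉ R1 → k ∉ B j := by
    intro a ha
    rw [hA2def] at ha
    exact ⟨ha.1, fun j hj k hk h1 h2 => ha.2 ⟨ha.1, j, hj, k, h2, hk, h1⟩⟩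
  -- preparation
  have hprep : ∀ a, ∃ p', le Γ (upto Γ ρ) p' (p a) ∧ (∀ i, ρ ≤ Γ.rk i → i ∉ Jr → p' i = p a i) ∧
      (∀ j ∈ Jr, (p' j).pr = (p a j).pr) ∧
      ∀ j ∈ Jr, ∀ k ∈ (p a j).pr, ∀ x c ε, Γ.req j k = some (x, some (c, ε)) → ξ0 ≤ Γ.rk c →
        (∃ e, Val (le Γ (below Γ ρ)) p' ε 0 e) ∧
          (p' c).stem.length ≤ (p' j).stem.length := fun a =>
    prep hG hξ0ρ Jr (fun j hj => ((hJ j).1 ((hJr j).1 hj).1).2) (fun j hj => ((hJr j).1 hj).2)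
      (p a) fun j hj k _ x c ε hx => hsupp0 j hj k x c ε hx
  choose p' hp'le hp'eq hp'pr hp'req using hprep
  -- second thinning
  let cs : α → Finset I := fun a => Jr.biUnion fun j =>
    ((p a j).pr.filter fun k => Sum.inr (j, k) ∉ R1).biUnion fun k => cOf (Γ.req j k)
  have hcs : ∀ a, ∀ j ∈ Jr, ∀ k ∈ (p a j).pr, Sum.inr (j, k) ∉ R1 → ∀ x c ε,
      Γ.req j k = some (x, some (c, ε)) → c ∈ cs a := by
    intro a j hj k hk hr x c ε hx
    refine Finset.mem_biUnion.2 ⟨j, hj, Finset.mem_biUnion.2 ⟨k, Finset.mem_filter.2 ⟨hk, hr⟩, ?_⟩⟩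
    rw [hx]
    exact Finset.mem_singleton_self c
  obtain ⟨A3, R2, hA3A, hA3, hR2, hd2⟩ := Helper126.delta_system
    (fun a => ((p' a).supp.filter fun i => Γ.rk i < ρ) ∪ cs a) A2 hA2
  obtain ⟨st, hA4⟩ := uncountable_fiber hA3 (fun a => fun j : J => (p' a j.1).stem)
  obtain ⟨A4, hA4def⟩ : ∃ A4 : Set α, A4 = {a ∈ A3 | (fun j : J => (p' a j.1).stem) = st} :=
    ⟨_, rfl⟩
  rw [← hA4def] at hA4
  have hA4' : ∀ a ∈ A4, a ∈ A3 ∧ ∀ j ∈ J, ∀ b ∈ A4, (p' a j).stem = (p' b j).stem := by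
    intro a ha
    have ha2 := ha
    rw [hA4def] at ha
    refine ⟨ha.1, fun j hj b hb => ?_⟩
    rw [hA4def] at hb
    exact (congrFun ha.2 ⟨j, hj⟩).trans (congrFun hb.2 ⟨j, hj⟩).symm
  obtain ⟨ξ, hξρ, hξbot, hξF, hξact, hξnact⟩ := hlim
    (((R2.filter fun i => Γ.rk i < ρ).image Γ.rk) ∪ (if act then {ξ0} else ∅)) (by
      intro w hw
      rcases Finset.mem_union.1 hw with h | h
      · obtain ⟨i, hi, rfl⟩ := Finset.mem_image.1 h
        exact (Finset.mem_filter.1 hi).2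
      · split_ifs at h with ha
        · rw [Finset.mem_singleton.1 h]
          exact hξ0act ha
        · exact absurd h (Finset.notMem_empty w))
  have hξ0ξ : ξ0 ≤ ξ := by
    by_cases ha : act
    · refine (hξF ξ0 (Finset.mem_union_right _ ?_)).le
      rw [if_pos ha]
      exact Finset.mem_singleton_self _
    · rw [hξnact ha]
      exact hξ0ρ
  have hR2ξ : ∀ i ∈ R2, Γ.rk i < ρ → Γ.rk i < ξ := fun i hi hi' =>
    hξF _ (Finset.mem_union_left _ (Finset.mem_image_of_mem _ (Finset.mem_filter.2 ⟨hi, hi'⟩)))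
  have hA5 := diff_uncountable hA4 (hexc _ (hbddc ξ hξact))
  obtain ⟨A5, hA5def⟩ : ∃ A5 : Set α, A5 = A4 \ {a ∈ A1 | ∃ j ∈ Jr,
    ∃ k ∈ {k | ∃ x c ε, Γ.req j k = some (x, some (c, ε)) ∧ Γ.rk c < ξ},
      k ∈ (p a j).pr ∧ Sum.inr (j, k) ∉ R1} := ⟨_, rfl⟩
  rw [← hA5def] at hA5
  have h51 : ∀ a ∈ A5, a ∈ A4 := fun a ha => by rw [hA5def] at ha; exact ha.1
  have h52 : ∀ a ∈ A5, a ∈ A3 := fun a ha => (hA4' a (h51 a ha)).1
  have h53 : ∀ a ∈ A5, a ∈ A2 := fun a ha => hA3A (h52 a ha)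
  have h54 : ∀ a ∈ A5, a ∈ A1 := fun a ha => (hA2' a (h53 a ha)).1
  have h55 : ∀ a ∈ A5, a ∈ A := fun a ha => hA1A (h54 a ha)
  have h56 : ∀ a ∈ A5, ∀ j ∈ Jr, ∀ k ∈ (p a j).pr, Sum.inr (j, k) ∉ R1 → ∀ x c ε,
      Γ.req j k = some (x, some (c, ε)) → ξ ≤ Γ.rk c := by
    intro a ha j hj k hk hr x c ε hx
    by_contra hcon
    have ha' := ha
    rw [hA5def] at ha'
    exact ha'.2 ⟨h54 a ha, j, hj, k, ⟨x, c, ε, hx, not_le.1 hcon⟩, hk, hr⟩
  -- the Luzin property below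
  obtain ⟨n, hn, q, Z, hZ, hc, hq, hlen, hval⟩ := ih ξ hξρ hξbot α A5 hA5 p' l
    (fun a ha => hl a (h55 a ha)) (hinj.mono fun a ha => h55 a ha) m h
  have hZne : Z.Nonempty := by
    rw [← Finset.card_pos]
    omega
  have hmemF2 : ∀ a i, p' a i ≠ CV.top → Γ.rk i < ρ →
      i ∈ ((p' a).supp.filter fun i => Γ.rk i < ρ) ∪ cs a := fun a i h1 h2 =>
    Finset.mem_union_left _ (Finset.mem_filter.2 ⟨Cond.mem_supp.2 h1, h2⟩)
  obtain ⟨P, hP, hPq⟩ := amalg hG (ξ := ξ) (ρ := ρ) hξρ Z hZne p' q J hq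
    (by
      intro i hi1 hi2 hiJ a ha b hb hab
      by_contra hcon
      push Not at hcon
      rcases hi2.lt_or_eq with hlt | heq
      · have h1 := hd2 a (h52 a (hZ ha)) b (h52 b (hZ hb)) hab i (hmemF2 a i hcon.1 hlt)
          (hmemF2 b i hcon.2 hlt)
        exact absurd (hR2ξ i h1 hlt) (not_lt.2 hi1)
      · have hiJr : i ∉ Jr := fun h => hiJ ((hJr i).1 h).1
        rw [hp'eq a i heq.ge hiJr, hp'eq b i heq.ge hiJr] at hcon
        exact hiJ ((hJ i).2 ⟨hdsupp a (h54 a (hZ ha)) b (h54 b (hZ hb)) hab i hcon.1 hcon.2, heq⟩))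
    (fun j hj => ((hJ j).1 hj).2)
    (fun j hj a ha b hb => (hA4' a (h51 a (hZ ha))).2 j hj b (h51 b (hZ hb)))
    (by
      intro j hj a ha k hk x c ε hx
      have hpart := hG.part j k x c ε hx
      have hjr : j ∈ Jr := (hJr j).2 ⟨hj, hpart.1⟩
      have hjρ : Γ.rk j = ρ := ((hJ j).1 hj).2
      have hcρ : Γ.rk c < ρ := by
        rw [← hjρ]
        exact hpart.2.1
      rw [hp'pr a j hjr] at hk
      refine ⟨(hsupp0 j hjr k x c ε hx).mono fun i (hi : Γ.rk i < ξ0) => hi.trans_le hξ0ξ, ?_⟩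
      by_cases hroot : Sum.inr (j, k) ∈ R1
      · left
        intro b hb
        rw [hp'pr b j hjr]
        exact hRpr b (h54 b (hZ hb)) j k hroot
      right
      have hkB := (hA2' a (h53 a (hZ ha))).2 j hjr k hk hroot
      have hξc := h56 a (hZ ha) j hjr k hk hroot x c ε hx
      have hreq := hp'req a j hjr k hk x c ε hx (hξ0ξ.trans hξc)
      refine ⟨hξc, hreq.1, hreq.2, fun b hb hba => ?_, ?_⟩
      · by_contra htop
        have h1 := hd2 b (h52 b (hZ hb)) a (h52 a (hZ ha)) hba c (hmemF2 b c htop hcρ)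
          (Finset.mem_union_right _ (hcs a j hjr k hk hroot x c ε hx))
        exact absurd (hR2ξ c h1 hcρ) (not_lt.2 hξc)
      · intro j' hj' b hb k' hk' x' ε' hx'
        have hjr' : j' ∈ Jr := (hJr j').2 ⟨hj', (hG.part j' k' x' c ε' hx').1⟩
        rw [hp'pr b j' hjr'] at hk'
        have hjj : j' = j := by
          by_contra hne
          apply hkB
          right
          simp only [Set.mem_iUnion]
          exact ⟨j', Finset.mem_filter.2 ⟨hjr', hne⟩, x, c, ε, k', x', ε', hx, hx'⟩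
        subst hjj
        have hkk : k' = k := hG.inj j' k' k x' x c ε' ε hx' hx
        subst hkk
        refine ⟨rfl, rfl, ?_⟩
        by_contra hba
        exact hroot (hdpr b (h54 b (hZ hb)) a (h54 a (hZ ha)) hba j' k' hk' hk))
  have hstem : ∀ a ∈ Z, (q (l a)).stem <+: (P (l a)).stem := fun a ha =>
    ext_stem (hPq (l a) (show Γ.rk (l a) < ξ by rw [hl a (h55 a (hZ ha))]; exact hξbot))
  refine ⟨n, hn, P, Z, fun a ha => h55 a (hZ ha), hc, fun a ha =>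
    le_trans' (low_upto ρ) (hP a ha) (hp'le a), fun a ha => ?_, fun a ha b hb hab => ?_⟩
  · exact (hlen a ha).trans_le (hstem a ha).length_le
  · rw [getD_prefix (hstem a ha) (hlen a ha), getD_prefix (hstem b hb) (hlen b hb)]
    exact hval a ha b hb hab

theorem luz_upto (hG : Good Γ) (ρ : W) : Luz Γ (upto Γ ρ) := by
  induction ρ using WellFoundedLT.induction with
  | ind ρ ih =>
    rcases eq_bot_or_bot_lt ρ with rfl | hρ
    · exact luz_bot hG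
    refine luz_stage hG hρ fun ξ hξ hξb => luz_lim fun ρ' hρ' => ?_
    rcases hρ' with rfl | ⟨j, hj, rfl⟩
    · exact luz_bot hG
    · exact ih _ (lt_of_lt_of_le hj hξ)

/-- the Luzin property -/
theorem luz : S_LUZ := by
  intro M I W rs _ _ _ Γ hG
  exact luz_lim fun ρ _ => luz_upto hG ρ

end Pool.Agent.W684.CF
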