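import Pool.Agent.W684.CF.Prep
import Pool.Agent.Helper126.Fact

/-!
# The Luzin property
-/

set_option autoImplicit false
set_option linter.unusedSectionVars false

namespace Pool.Agent.W684.CF

open Classical

variable {M I W : Type} {rs : I → Prop} [LinearOrder W] [WellFoundedLT W] {Γ : Par M W rs}

theorem uncountable_fiber {α β : Type} [Countable β] {A : Set α} (hA : ¬ A.Countable)
    (g : α → β) : ∃ b, ¬ {a ∈ A | g a = b}.Countable := by
  by_contra hcon
  push Not at hcon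
  apply hA
  refine (Set.countable_iUnion hcon).mono fun a ha => ?_
  exact Set.mem_iUnion.2 ⟨g a, ha, rfl⟩

theorem diff_uncountable {α : Type} {A B : Set α} (hA : ¬ A.Countable) (hB : B.Countable) :
    ¬ (A \ B).Countable := by
  intro h
  apply hA
  exact (h.union hB).mono fun a ha => by
    by_cases hb : a ∈ B
    · exact Or.inr hb
    · exact Or.inl ⟨ha, hb⟩

/-- amalgamation of conditions with disjoint supports outside of `S` -/
theorem amalg0 {α : Type} {S T : Set I} (hS : Low Γ S) (Z : Finset α)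
    (p : α → Cond M rs) (q : Cond M rs) (h0 : ∀ a ∈ Z, le Γ S q (p a))
    (h1 : ∀ i ∈ T, i ∉ S → ∀ a ∈ Z, ∀ b ∈ Z, a ≠ b → p a i = CV.top ∨ p b i = CV.top) :
    ∃ P : Cond M rs, (∀ a ∈ Z, le Γ T P (p a)) ∧ ∀ i ∈ S, P i = q i := by
  let f : I → CV M := fun i => if i ∈ S then q i
    else if h : i ∈ T ∧ ∃ a ∈ Z, p a i ≠ CV.top then p h.2.choose i else CV.top
  have hf1 : ∀ i ∈ S, f i = q i := fun i hi => if_pos hi
  have hf2 : ∀ i ∉ S, f i = if h : i ∈ T ∧ ∃ a ∈ Z, p a i ≠ CV.top then p h.2.choose i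
      else CV.top := fun i hi => if_neg hi
  have hfin : {i | f i ≠ CV.top}.Finite := by
    refine Set.Finite.subset (q.2.1.union
      (Set.Finite.biUnion (Finset.finite_toSet Z) fun a _ => (p a).2.1)) ?_
    intro i hi
    have hi' : f i ≠ CV.top := hi
    by_cases hc1 : i ∈ S
    · rw [hf1 i hc1] at hi'
      exact Or.inl hi'
    rw [hf2 i hc1] at hi'
    split_ifs at hi' with h
    · right
      simp only [Set.mem_iUnion]
      exact ⟨_, h.2.choose_spec.1, hi'⟩
    · exact absurd rfl hi'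
  have hlegit : ∀ i, rs i → Legit (f i) := by
    intro i hr
    by_cases hc1 : i ∈ S
    · rw [hf1 i hc1]
      exact q.legit hr
    rw [hf2 i hc1]
    split_ifs with h
    · exact (p _).legit hr
    · exact legit_top
  obtain ⟨P, hP⟩ : ∃ P : Cond M rs, ∀ i, P i = f i := ⟨⟨f, hfin, hlegit⟩, fun _ => rfl⟩
  refine ⟨P, fun a ha j hj => ?_, fun i hi => by rw [hP, hf1 i hi]⟩
  have hPS : le Γ S P (p a) := le_congr hS (fun i hi => by rw [hP, hf1 i hi]) (fun _ _ => rfl)
    (h0 a ha)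
  by_cases hjS : j ∈ S
  · exact hPS j hjS
  by_cases htop : p a j = CV.top
  · exact ext_top htop
  have hex : j ∈ T ∧ ∃ a ∈ Z, p a j ≠ CV.top := ⟨hj, a, ha, htop⟩
  apply ext_of_eq
  rw [hP, hf2 j hjS, dif_pos hex]
  by_cases hab : hex.2.choose = a
  · rw [hab]
  · rcases h1 j hj hjS _ hex.2.choose_spec.1 a ha hab with h | h
    · exact absurd h hex.2.choose_spec.2
    · exact absurd h htop

variable [OrderBot W]

/-- the lowest rank -/
theorem luz_bot (hG : Good Γ) : Luz Γ (upto Γ ⊥) := by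
  intro α A hA p l hl hinj m h
  obtain ⟨A1, R, hA1A, hA1, -, hd⟩ := Helper126.delta_system
    (fun a => insert (l a) (p a).supp) A hA
  have hfinR : {a ∈ A1 | l a ∈ R}.Finite := by
    refine Set.Finite.of_finite_image (f := l) ?_ ?_
    · refine (Finset.finite_toSet R).subset ?_
      rintro _ ⟨a, ha, rfl⟩
      exact ha.2
    · exact hinj.mono fun a ha => hA1A ha.1
  have hA2 := diff_uncountable hA1 hfinR.countable
  obtain ⟨⟨st, N0⟩, hA3⟩ := uncountable_fiber hA2
    (fun a => ((fun r : R => (p a r.1).stem), (p a (l a)).stem.length))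
  obtain ⟨A3, hA3def⟩ : ∃ A3 : Set α, A3 = {a ∈ A1 \ {a ∈ A1 | l a ∈ R} |
      ((fun r : R => (p a r.1).stem), (p a (l a)).stem.length) = (st, N0)} := ⟨_, rfl⟩
  rw [← hA3def] at hA3
  have hA3' : ∀ a ∈ A3, a ∈ A1 ∧ l a ∉ R ∧ (∀ r ∈ R, ∀ b ∈ A3, (p a r).stem = (p b r).stem) ∧
      (p a (l a)).stem.length = N0 := by
    intro a ha
    have ha2 := ha
    rw [hA3def] at ha
    obtain ⟨⟨h1, h2⟩, h3⟩ := ha
    have h4 := (Prod.mk.inj h3).1
    refine ⟨h1, fun h => h2 ⟨h1, h⟩, fun r hr b hb => ?_, (Prod.mk.inj h3).2⟩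
    rw [hA3def] at hb
    obtain ⟨_, h3'⟩ := hb
    have h5 := (Prod.mk.inj h3').1
    exact (congrFun h4 ⟨r, hr⟩).trans (congrFun h5 ⟨r, hr⟩).symm
  obtain ⟨n, hnm, hnN⟩ : ∃ n, m ≤ n ∧ N0 ≤ n := ⟨max m N0, le_max_left _ _, le_max_right _ _⟩
  have hinf : A3.Infinite := fun hf => hA3 hf.countable
  obtain ⟨Z, hZA, hZc⟩ := hinf.exists_subset_card_eq (h n + 1)
  obtain ⟨num, hnum⟩ := Set.countable_iff_exists_injOn.1 (Finset.countable_toSet Z)
  have hbot : ∀ a ∈ Z, Γ.rk (l a) = ⊥ := fun a ha => hl a (hA1A (hA3' a (hZA ha)).1)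
  let v : α → CV M := fun a =>
    ⟨((p a (l a)).stem ++ List.replicate (n - N0) ∅) ++ [Finset.range (num a)], (p a (l a)).pr⟩
  have hex : ∀ a, ∃ p' : Cond M rs, a ∈ Z → (p' (l a) = v a ∧ ∀ i, i ≠ l a → p' i = p a i) := by
    intro a
    by_cases ha : a ∈ Z
    · refine ⟨upd (p a) (l a) (v a) fun hr => absurd hr (hG.bot _ (hbot a ha)).1, fun _ =>
        ⟨upd_same _ _ _ _, fun i hi => upd_of_ne _ _ _ hi⟩⟩
    · exact ⟨p a, fun h => absurd h ha⟩
  choose p' hp' using hex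
  have hle : ∀ a ∈ Z, le Γ (upto Γ ⊥) (p' a) (p a) := by
    intro a ha i hi
    obtain ⟨h1, h2⟩ := hp' a ha
    by_cases hil : i = l a
    · subst hil
      refine ext_noreq (hG.bot _ (hbot a ha)).2 ?_ ?_
      · rw [h1]
        exact (List.prefix_append _ _).trans (List.prefix_append _ _)
      · rw [h1]
    · exact ext_of_eq (h2 i hil)
  have hZne : Z.Nonempty := by
    rw [← Finset.card_pos]
    omega
  obtain ⟨P, hP, -⟩ := amalg hG (ξ := ⊥) (ρ := ⊥) le_rfl Z hZne p' Cond.one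
    (R.filter fun i => Γ.rk i = ⊥)
    (fun a _ i hi => absurd hi (show ¬ Γ.rk i < ⊥ from not_lt_bot))
    (by
      intro i _ hi2 hiJ a ha b hb hab
      have hib : Γ.rk i = ⊥ := le_bot_iff.1 hi2
      by_contra hcon
      push Not at hcon
      have key : ∀ a ∈ Z, p' a i ≠ CV.top → i ∈ insert (l a) (p a).supp := by
        intro a ha hne
        by_cases hil : i = l a
        · rw [hil]
          exact Finset.mem_insert_self _ _
        · rw [(hp' a ha).2 i hil] at hne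
          exact Finset.mem_insert_of_mem (Cond.mem_supp.2 hne)
      apply hiJ
      rw [Finset.mem_filter]
      exact ⟨hd a (hA3' a (hZA ha)).1 b (hA3' b (hZA hb)).1 hab i (key a ha hcon.1)
        (key b hb hcon.2), hib⟩)
    (fun j hj => (Finset.mem_filter.1 hj).2)
    (by
      intro j hj a ha b hb
      have hjR := (Finset.mem_filter.1 hj).1
      have h1 : ∀ a ∈ Z, j ≠ l a := fun a ha h => (hA3' a (hZA ha)).2.1 (h ▸ hjR)
      rw [(hp' a ha).2 j (h1 a ha), (hp' b hb).2 j (h1 b hb)]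
      exact (hA3' a (hZA ha)).2.2.1 j hjR b (hZA hb))
    (by
      intro j hj a _ k _ x c ε hx
      rw [(hG.bot j (Finset.mem_filter.1 hj).2).2 k] at hx
      exact absurd hx (by simp))
  have hlowb : Low Γ (upto Γ ⊥) := low_upto ⊥
  have hstem : ∀ a ∈ Z, n < (P (l a)).stem.length ∧
      (P (l a)).stem.getD n ∅ = Finset.range (num a) := by
    intro a ha
    have h1 := ext_stem (hP a ha (l a) (show Γ.rk (l a) ≤ ⊥ from (hbot a ha).le))
    rw [(hp' a ha).1] at h1
    have h2 : ((p a (l a)).stem ++ List.replicate (n - N0) ∅).length = n := by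
      rw [List.length_append, List.length_replicate, (hA3' a (hZA ha)).2.2.2]
      omega
    have h3 : (v a).stem.length = n + 1 := by
      show (((p a (l a)).stem ++ List.replicate (n - N0) ∅) ++ [Finset.range (num a)]).length = _
      rw [List.length_append, h2]
      rfl
    refine ⟨by have := h1.length_le; omega, ?_⟩
    rw [getD_prefix h1 (by omega)]
    show (((p a (l a)).stem ++ List.replicate (n - N0) ∅) ++ [Finset.range (num a)]).getD n ∅ = _
    rw [List.getD_append_right _ _ _ _ h2.le, h2]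
    simp
  refine ⟨n, hnm, P, Z, fun a ha => hA1A (hA3' a (hZA ha)).1, by omega,
    fun a ha => le_trans' hlowb (hP a ha) (hle a ha), fun a ha => (hstem a ha).1, ?_⟩
  intro a ha b hb hab
  rw [(hstem a ha).2, (hstem b hb).2, Finset.card_range, Finset.card_range]
  exact fun h => hab (hnum ha hb h)

/-- limits -/
theorem luz_lim {T : Set I}
    (ih : ∀ ρ, (ρ = ⊥ ∨ ∃ j ∈ T, Γ.rk j = ρ) → Luz Γ (upto Γ ρ)) : Luz Γ T := by
  intro α A hA p l hl hinj m h
  obtain ⟨A1, R, hA1A, hA1, hR, hd⟩ := Helper126.delta_system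
    (fun a => (p a).supp.filter (· ∈ T)) A hA
  have hne : (insert ⊥ (R.image Γ.rk)).Nonempty := Finset.insert_nonempty _ _
  obtain ⟨ρ, hρ1, hρ2⟩ : ∃ ρ ∈ insert ⊥ (R.image Γ.rk), ∀ w ∈ insert ⊥ (R.image Γ.rk), w ≤ ρ :=
    ⟨_, Finset.max'_mem _ hne, fun w hw => Finset.le_max' _ w hw⟩
  obtain ⟨a1, ha1⟩ : A1.Nonempty := by
    rw [Set.nonempty_iff_ne_empty]
    rintro rfl
    exact hA1 Set.countable_empty
  have hρ3 : ρ = ⊥ ∨ ∃ j ∈ T, Γ.rk j = ρ := by
    rcases Finset.mem_insert.1 hρ1 with h' | h'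
    · exact Or.inl h'
    · obtain ⟨j, hj, hj'⟩ := Finset.mem_image.1 h'
      exact Or.inr ⟨j, (Finset.mem_filter.1 (hR a1 ha1 hj)).2, hj'⟩
  obtain ⟨n, hn, q, Z, hZ, hc, hq, h1, h2⟩ := ih ρ hρ3 α A1 hA1 p l
    (fun a ha => hl a (hA1A ha)) (hinj.mono hA1A) m h
  obtain ⟨P, hP, hPq⟩ := amalg0 (T := T) (low_upto ρ) Z p q hq (by
    intro i hi hi' a ha b hb hab
    by_contra hcon
    push Not at hcon
    have h3 := hd a (hZ ha) b (hZ hb) hab i
      (Finset.mem_filter.2 ⟨Cond.mem_supp.2 hcon.1, hi⟩)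
      (Finset.mem_filter.2 ⟨Cond.mem_supp.2 hcon.2, hi⟩)
    exact hi' (hρ2 _ (Finset.mem_insert_of_mem (Finset.mem_image_of_mem _ h3))))
  have h4 : ∀ a ∈ Z, P (l a) = q (l a) := fun a ha =>
    hPq _ (show Γ.rk (l a) ≤ ρ by rw [hl a (hA1A (hZ ha))]; exact bot_le)
  refine ⟨n, hn, P, Z, hZ.trans hA1A, hc, hP, fun a ha => ?_, fun a ha b hb hab => ?_⟩
  · rw [h4 a ha]
    exact h1 a ha
  · rw [h4 a ha, h4 b hb]
    exact h2 a ha b hb hab

end Pool.Agent.W684.CF
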